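import Pool.Agent.R794.FP.Fin
import Pool.Agent.Y697.UF.Baire

/-! # Definable functions with closed fibres and countable image -/

set_option autoImplicit false

namespace Pool.Agent.R794.FP

open Function
open Pool.Agent.Y924.EL
open Pool.Agent.Y924.UF

variable {p : ℕ} [Fact p.Prime]

/-- `x'` is in the neighbourhood `x + (b O)^n` of `x` -/
def Near {n : ℕ} (b : LaurentSeries (ZMod p)) (x x' : Fin n → LaurentSeries (ZMod p)) : Prop :=
  ∀ i, ∃ z, z ∈ OO p ∧ b * z + x i = x' i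

/-- the coordinates agree below `r` -/
def NB {n : ℕ} (r : ℤ) (x x' : Fin n → LaurentSeries (ZMod p)) : Prop :=
  ∀ i, Pool.Agent.Y697.UF.Ag r (x i) (x' i)

theorem NB.symm {n : ℕ} {r : ℤ} {x x' : Fin n → LaurentSeries (ZMod p)} (h : NB r x x') :
    NB r x' x := fun i k hk => (h i k hk).symm

theorem NB.trans {n : ℕ} {r : ℤ} {x x' x'' : Fin n → LaurentSeries (ZMod p)} (h : NB r x x')
    (h' : NB r x' x'') : NB r x x'' := fun i k hk => (h i k hk).trans (h' i k hk)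

theorem NB.mono {n : ℕ} {r s : ℤ} {x x' : Fin n → LaurentSeries (ZMod p)} (h : NB s x x')
    (hrs : r ≤ s) : NB r x x' := fun i k hk => h i k (lt_of_lt_of_le hk hrs)

theorem NB.rfl {n : ℕ} {r : ℤ} {x : Fin n → LaurentSeries (ZMod p)} : NB r x x :=
  fun _ _ _ => Eq.refl _

theorem near_of_NB {n : ℕ} {b : LaurentSeries (ZMod p)} (hb : b ≠ 0) :
    ∃ r : ℤ, ∀ x x' : Fin n → LaurentSeries (ZMod p), NB r x x' → Near b x x' := by
  obtain ⟨r, hr⟩ := Pool.Agent.Y697.UF.ball_of b hb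
  exact ⟨r, fun x x' h i => hr _ _ (h i)⟩

theorem near_single {n : ℕ} (r : ℤ) (x x' : Fin n → LaurentSeries (ZMod p)) :
    Near (HahnSeries.single r (1 : ZMod p)) x x' ↔ NB r x x' := by
  unfold Near NB
  exact forall_congr' fun i => Pool.Agent.Y697.UF.ball_single r (x i) (x' i)

theorem single_ne (r : ℤ) : (HahnSeries.single r (1 : ZMod p)) ≠ 0 := by
  intro h
  exact one_ne_zero (HahnSeries.single_eq_zero_iff.1 h)

/-- limits -/
theorem exists_limit (u : ℕ → LaurentSeries (ZMod p)) (r : ℕ → ℤ) (hr : ∀ k, r k + 1 ≤ r (k + 1))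
    (hu : ∀ k, Pool.Agent.Y697.UF.Ag (r k) (u k) (u (k + 1))) :
    ∃ x, ∀ k, Pool.Agent.Y697.UF.Ag (r k) (u k) x := by
  have hm : ∀ n : ℕ, r 0 + n ≤ r n := by
    intro n
    induction n with
    | zero => simp
    | succ n ih =>
      have := hr n
      push_cast
      linarith
  have hmono : ∀ n l : ℕ, r n ≤ r (n + l) := by
    intro n l
    induction l with
    | zero => exact le_rfl
    | succ l ih =>
      have := hr (n + l)
      rw [← add_assoc]
      linarith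
  have hag : ∀ n l : ℕ, Pool.Agent.Y697.UF.Ag (r n) (u n) (u (n + l)) := by
    intro n l
    induction l with
    | zero => exact fun _ _ => rfl
    | succ l ih =>
      intro k hk
      have h1 := hu (n + l) k (lt_of_lt_of_le hk (hmono n l))
      rw [ih k hk, h1]
      rfl
  let N : ℤ → ℕ := fun k => (k - r 0 + 1).toNat
  have hN : ∀ k : ℤ, k < r (N k) := by
    intro k
    have h1 := hm (N k)
    have h2 : k - r 0 + 1 ≤ ((N k : ℕ) : ℤ) := Int.self_le_toNat _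
    linarith
  have hbdd : BddBelow (Function.support fun k : ℤ => (u (N k)).coeff k) := by
    refine ⟨min (r 0) (u 0).order, fun k hk => ?_⟩
    by_contra hlt
    push Not at hlt
    apply hk
    have h1 := hag 0 (N k) k (lt_of_lt_of_le hlt (min_le_left _ _))
    rw [Nat.zero_add] at h1
    change (u (N k)).coeff k = 0
    rw [← h1]
    exact HahnSeries.coeff_eq_zero_of_lt_order (lt_of_lt_of_le hlt (min_le_right _ _))
  refine ⟨HahnSeries.ofSuppBddBelow _ hbdd, fun n k hk => ?_⟩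
  change (u n).coeff k = (u (N k)).coeff k
  rcases le_total n (N k) with h | h
  · obtain ⟨l, hl⟩ := Nat.exists_eq_add_of_le h
    rw [hl]
    exact hag n l k hk
  · obtain ⟨l, hl⟩ := Nat.exists_eq_add_of_le h
    rw [hl]
    exact (hag (N k) l k (hN k)).symm

theorem range_subset {n m : ℕ}
    (R : (Fin n → LaurentSeries (ZMod p)) → (Fin m → LaurentSeries (ZMod p)) → Prop)
    (hfun : ∀ x y y', R x y → R x y' → y = y')
    (hcount : {y | ∃ x, R x y}.Countable)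
    (hloc : ∀ x, (∃ y, R x y) → ∃ b : LaurentSeries (ZMod p), b ≠ 0 ∧ ∀ x', Near b x x' →
      (¬ ∃ y, R x' y) → ∃ b' : LaurentSeries (ZMod p), b' ≠ 0 ∧ ∀ x'', Near b' x' x'' →
        ¬ ∃ y, R x'' y)
    (hcl : ∀ x y, (∃ y', R x y') → ¬ R x y → ∃ b : LaurentSeries (ZMod p), b ≠ 0 ∧
      ∀ x', Near b x x' → ¬ R x' y)
    (hfin : (LCVn R).Finite) : {y | ∃ x, R x y} ⊆ LCVn R := by
  classical
  rintro y0 ⟨x0, hxy0⟩
  by_contra hy0
  obtain ⟨s, hs⟩ := hcount.exists_eq_range ⟨y0, x0, hxy0⟩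
  -- the first neighbourhood
  have h0 : ∃ r0 : ℤ, ∀ x, NB r0 x0 x → (∀ a ∈ LCVn R, ¬ R x a) ∧
      ((¬ ∃ y, R x y) → ∃ r : ℤ, ∀ x', NB r x x' → ¬ ∃ y, R x' y) := by
    obtain ⟨b, hb, h1⟩ := hloc x0 ⟨y0, hxy0⟩
    obtain ⟨r1, hr1⟩ := near_of_NB (n := n) hb
    have h2 : ∀ a : Fin m → LaurentSeries (ZMod p), ∃ r : ℤ, a ∈ LCVn R →
        ∀ x, NB r x0 x → ¬ R x a := by
      intro a
      by_cases ha : a ∈ LCVn R
      · have h3 : ¬ R x0 a := fun h => hy0 (by rw [hfun x0 y0 a hxy0 h]; exact ha)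
        obtain ⟨b', hb', h4⟩ := hcl x0 a ⟨y0, hxy0⟩ h3
        obtain ⟨r, hr⟩ := near_of_NB (n := n) hb'
        exact ⟨r, fun _ x hx => h4 x (hr _ _ hx)⟩
      · exact ⟨0, fun h => absurd h ha⟩
    choose ρ hρ using h2
    obtain ⟨M, hM⟩ : ∃ M : ℤ, ∀ a ∈ LCVn R, ρ a ≤ M := by
      obtain ⟨M, hM⟩ := (hfin.image ρ).bddAbove
      exact ⟨M, fun a ha => hM ⟨a, ha, rfl⟩⟩
    refine ⟨max r1 M, fun x hx => ⟨fun a ha => hρ a ha x (hx.mono ((hM a ha).trans
      (le_max_right _ _))), fun hn => ?_⟩⟩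
    obtain ⟨b', hb', h5⟩ := h1 x (hr1 _ _ (hx.mono (le_max_left _ _))) hn
    obtain ⟨r, hr⟩ := near_of_NB (n := n) hb'
    exact ⟨r, fun x' hx' => h5 x' (hr _ _ hx')⟩
  obtain ⟨r0, hr0⟩ := h0
  let Q := {q : (Fin n → LaurentSeries (ZMod p)) × ℤ // (∃ y, R q.1 y) ∧ NB r0 x0 q.1 ∧ r0 ≤ q.2}
  have hstep : ∀ (q : Q) (k : ℕ), ∃ q' : Q, NB q.1.2 q.1.1 q'.1.1 ∧ q.1.2 + 1 ≤ q'.1.2 ∧
      ∀ x, NB q'.1.2 q'.1.1 x → ¬ R x (s k) := by
    rintro ⟨⟨x, l⟩, hZ, hx, hl⟩ k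
    simp only at hZ hx hl ⊢
    by_cases hA : ∃ x', NB l x x' ∧ (∃ y, R x' y) ∧ ¬ R x' (s k)
    · obtain ⟨x', h1, h2, h3⟩ := hA
      obtain ⟨b, hb, h4⟩ := hcl x' (s k) h2 h3
      obtain ⟨r, hr⟩ := near_of_NB (n := n) hb
      refine ⟨⟨(x', max (l + 1) r), h2, hx.trans (h1.mono hl), ?_⟩, h1, le_max_left _ _,
        fun x'' h5 => h4 x'' (hr _ _ (h5.mono (le_max_right _ _)))⟩
      simp only
      have := le_max_left (l + 1) r
      linarith
    · exfalso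
      push Not at hA
      obtain ⟨y, hy⟩ := hZ
      have h1 : R x (s k) := hA x NB.rfl ⟨y, hy⟩
      have h2 : s k ∈ LCVn R := by
        refine ⟨x, h1, _, single_ne l, fun x' y' h3 h4 => ?_⟩
        have h5 : NB l x x' := (near_single l x x').1 h4
        exact hfun x' y' (s k) h3 (hA x' h5 ⟨y', h3⟩)
      exact (hr0 x hx).1 _ h2 h1
  choose g hg1 hg2 hg3 using hstep
  let q : ℕ → Q := fun k => Nat.rec ⟨(x0, r0), ⟨y0, hxy0⟩, NB.rfl, le_rfl⟩ (fun k q => g q k) k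
  have hq : ∀ k, q (k + 1) = g (q k) k := fun _ => rfl
  have hr : ∀ k, (q k).1.2 + 1 ≤ (q (k + 1)).1.2 := fun k => hg2 (q k) k
  have hlim : ∀ i : Fin n, ∃ x, ∀ k, Pool.Agent.Y697.UF.Ag (q k).1.2 ((q k).1.1 i) x := by
    intro i
    exact exists_limit (fun k => (q k).1.1 i) (fun k => (q k).1.2) hr fun k => hg1 (q k) k i
  choose x hx using hlim
  have hxk : ∀ k, NB (q k).1.2 (q k).1.1 x := fun k i => hx i k
  have hB0 : NB r0 x0 x := hxk 0
  have hge : ∀ k : ℕ, r0 + k ≤ (q k).1.2 := by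
    intro k
    induction k with
    | zero => simp [q]
    | succ k ih =>
      have := hr k
      push_cast
      linarith
  have hZ : ∃ y, R x y := by
    by_contra hn
    obtain ⟨r, h1⟩ := (hr0 x hB0).2 hn
    have h2 : r ≤ (q (r - r0).toNat).1.2 := by
      have h3 := hge (r - r0).toNat
      have h4 : r - r0 ≤ (((r - r0).toNat : ℕ) : ℤ) := Int.self_le_toNat _
      linarith
    exact h1 _ ((hxk (r - r0).toNat).mono h2).symm (q (r - r0).toNat).2.1
  obtain ⟨y, hy⟩ := hZ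
  obtain ⟨k, hk⟩ : y ∈ Set.range s := by
    rw [← hs]
    exact ⟨x, hy⟩
  refine hg3 (q k) k x ?_ (by rw [hk]; exact hy)
  exact hxk (k + 1)

end Pool.Agent.R794.FP
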