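import Pool.Agent.R794.FP.Baire
import Pool.Agent.Y15.UF.Res

/-! # Relations coded by unary predicates -/

set_option autoImplicit false

namespace Pool.Agent.R794.FP

open Function
open Pool.Agent.Y924.EL
open Pool.Agent.Y924.UF
open Pool.Agent.Y410.UF

/-- the code of a list: the code of `[]` is `0`, the code of `a :: l` is `a ^ q + τ c ^ q`, where
`c` is the code of `l` -/
def cdl {K : Type} [CommRing K] (q : ℕ) (τ : K) : List K → K
  | [] => 0
  | a :: l => a ^ q + τ * (cdl q τ l) ^ q

/-- `x_7` is the code of the list of the `x_i`, `i ∈ l`, with respect to `x_T` -/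
def cdF (q T : ℕ) : List ℕ → Fm
  | [] => .add 7 7 7
  | a :: l => .ex 8 (.and (.ex 7 (.and (cdF q T l) (.eq 8 7)))
      (.ex 9 (.ex 10 (.ex 11 (.and (powC q a 9) (.and (powC q 8 10)
        (.and (.mul T 10 11) (.add 9 11 7))))))))

theorem sat_cdF {K : Type} [CommRing K] (O : Set K) (q T : ℕ) (hT : 20 ≤ T) (l : List ℕ)
    (hl : ∀ i ∈ l, 20 ≤ i) : ∀ v : ℕ → K,
    (Sat O (cdF q T l) v ↔ v 7 = cdl q (v T) (l.map v)) := by
  induction l with
  | nil =>
    intro v
    simp [cdF, Sat, cdl]
  | cons a l ih =>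
    intro v
    have ha : 20 ≤ a := hl a (by simp)
    have hl' : ∀ i ∈ l, 20 ≤ i := fun i hi => hl i (by simp [hi])
    have ih' := ih hl'
    simp only [cdF, Sat, ih']
    rw [show cdl q (v T) ((a :: l).map v) = v a ^ q + v T * (cdl q (v T) (l.map v)) ^ q from rfl]
    have hmap : ∀ (c d : K), l.map (update (update v 8 c) 7 d) = l.map v := by
      intro c d
      apply List.map_congr_left
      intro i hi
      have h1 := hl' i hi
      rw [update_of_ne (by omega), update_of_ne (by omega)]
    simp only [hmap, sat_powC O q a 9 (by omega) (by omega) (by norm_num) (by norm_num),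
      sat_powC O q 8 10 (by norm_num) (by norm_num) (by norm_num) (by norm_num),
      update_self, update_of_ne (show T ≠ 7 by omega), update_of_ne (show T ≠ 8 by omega),
      update_of_ne (show T ≠ 9 by omega), update_of_ne (show T ≠ 10 by omega),
      update_of_ne (show T ≠ 11 by omega),
      update_of_ne (show a ≠ 8 by omega), update_of_ne (show a ≠ 9 by omega),
      update_of_ne (show a ≠ 10 by omega), update_of_ne (show a ≠ 11 by omega),
      update_of_ne (show (8 : ℕ) ≠ 7 by norm_num), update_of_ne (show (8 : ℕ) ≠ 9 by norm_num),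
      update_of_ne (show (8 : ℕ) ≠ 10 by norm_num), update_of_ne (show (8 : ℕ) ≠ 11 by norm_num),
      update_of_ne (show (9 : ℕ) ≠ 10 by norm_num), update_of_ne (show (9 : ℕ) ≠ 11 by norm_num),
      update_of_ne (show (10 : ℕ) ≠ 11 by norm_num), update_of_ne (show (7 : ℕ) ≠ 8 by norm_num),
      update_of_ne (show (7 : ℕ) ≠ 9 by norm_num), update_of_ne (show (7 : ℕ) ≠ 10 by norm_num),
      update_of_ne (show (7 : ℕ) ≠ 11 by norm_num)]
    constructor
    · rintro ⟨c, ⟨d, h1, h2⟩, x, y, z, h3, h4, h5, h6⟩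
      rw [← h6, ← h5, ← h4, ← h3, h2, h1]
    · intro h
      exact ⟨_, ⟨_, rfl, rfl⟩, _, _, _, rfl, rfl, rfl, h.symm⟩

/-- copies of the first `N` variables -/
def cps (N : ℕ) : List ℕ := (List.range N).map (fun i => 20 + N + i)

theorem mem_cps (N i : ℕ) : i ∈ cps N ↔ 20 + N ≤ i ∧ i < 20 + 2 * N := by
  simp only [cps, List.mem_map, List.mem_range]
  constructor
  · rintro ⟨a, ha, rfl⟩
    omega
  · rintro ⟨h1, h2⟩
    exact ⟨i - (20 + N), by omega, by omega⟩

/-- the code of `x_0, ..., x_(N-1)`, with respect to `x_(20 + 2 N)`, is in the predicate -/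
def relF (q N : ℕ) : Fm :=
  exs (cps N) (.and (ands ((List.range N).map fun i => .eq i (20 + N + i)))
    (.ex 7 (.and (cdF q (20 + 2 * N) (cps N)) (.val 7))))

theorem sat_relF {K : Type} [CommRing K] (O : Set K) (q N : ℕ) (u : ℕ → K) :
    Sat O (relF q N) u ↔ cdl q (u (20 + 2 * N)) ((List.range N).map u) ∈ O := by
  unfold relF
  rw [sat_exs]
  have e0 : ∀ (f : ℕ → K) (i : ℕ), i ∉ cps N → ovr u f (cps N) i = u i := by
    intro f i hi
    simp [ovr, hi]
  have e1 : ∀ (f : ℕ → K) (i : ℕ), i ∈ cps N → ovr u f (cps N) i = f i := by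
    intro f i hi
    simp [ovr, hi]
  have e2 : ∀ f : ℕ → K, (Sat O (ands ((List.range N).map fun i => .eq i (20 + N + i)))
      (ovr u f (cps N)) ↔ ∀ i < N, u i = f (20 + N + i)) := by
    intro f
    rw [sat_ands]
    simp only [List.mem_map, List.mem_range]
    constructor
    · intro h i hi
      have h1 := h _ ⟨i, hi, rfl⟩
      simp only [Sat] at h1
      rwa [e0 f i (by rw [mem_cps]; omega), e1 f _ (by rw [mem_cps]; omega)] at h1
    · rintro h ψ ⟨i, hi, rfl⟩
      simp only [Sat]
      rw [e0 f i (by rw [mem_cps]; omega), e1 f _ (by rw [mem_cps]; omega)]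
      exact h i hi
  have e3 : ∀ (f : ℕ → K), (∀ i < N, u i = f (20 + N + i)) → ∀ a : K,
      (cps N).map (update (ovr u f (cps N)) 7 a) = (List.range N).map u := by
    intro f hf a
    rw [show (cps N).map (update (ovr u f (cps N)) 7 a) =
      (List.range N).map (fun i => update (ovr u f (cps N)) 7 a (20 + N + i)) from by
        rw [cps, List.map_map]; rfl]
    apply List.map_congr_left
    intro i hi
    rw [List.mem_range] at hi
    rw [update_of_ne (by omega), e1 f _ (by rw [mem_cps]; omega), hf i hi]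
  constructor
  · rintro ⟨f, h1, a, h2, h3⟩
    rw [e2] at h1
    rw [sat_cdF O q _ (by omega) _ (fun i hi => by rw [mem_cps] at hi; omega), e3 f h1,
      update_self, update_of_ne (by omega), e0 f _ (by rw [mem_cps]; omega)] at h2
    rw [← h2]
    simpa only [Sat, update_self] using h3
  · intro h
    have h1 : ∀ i < N, u i = (fun i => u (i - (20 + N))) (20 + N + i) := by
      intro i hi
      simp
    refine ⟨fun i => u (i - (20 + N)), (e2 _).2 h1,
      cdl q (u (20 + 2 * N)) ((List.range N).map u), ?_, ?_⟩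
    · rw [sat_cdF O q _ (by omega) _ (fun i hi => by rw [mem_cps] at hi; omega), e3 _ h1,
        update_self, update_of_ne (by omega), e0 _ _ (by rw [mem_cps]; omega)]
    · simpa only [Sat, update_self] using h

theorem map_asg {K : Type} {n m : ℕ} (x : Fin n → K) (y : Fin m → K) (v : ℕ → K) :
    (List.range (n + m)).map (asg x y v) = List.ofFn x ++ List.ofFn y := by
  apply List.ext_getElem
  · simp
  · intro i h1 h2
    simp only [List.getElem_map, List.getElem_range, asg]
    rw [List.getElem_append]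
    simp only [List.length_map, List.length_range] at h1
    by_cases h3 : i < n
    · simp [h3]
    · have h4 : i - n < m := by omega
      simp [h3, h4]

section Val

variable {p : ℕ} [Fact p.Prime]

theorem tt_pow (u : LaurentSeries (ZMod p)) :
    u ^ p ≠ (HahnSeries.single (1 : ℤ) (1 : ZMod p) : LaurentSeries (ZMod p)) := by
  intro h
  have hp : p ≠ 0 := (Fact.out : p.Prime).ne_zero
  have h1 : (u ^ p).order = (1 : ℤ) := by
    rw [h]
    exact HahnSeries.order_single one_ne_zero
  rw [HahnSeries.order_pow] at h1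
  have h2 : (p : ℤ) * u.order = 1 := by simpa using h1
  have h3 : (p : ℤ) ∣ 1 := ⟨_, h2.symm⟩
  have h4 : p ∣ 1 := by exact_mod_cast h3
  exact (Fact.out : p.Prime).one_lt.ne' (Nat.dvd_one.1 h4)

theorem JJ_inj (a b a' b' : LaurentSeries (ZMod p))
    (h : a ^ p + HahnSeries.single (1 : ℤ) (1 : ZMod p) * b ^ p =
      a' ^ p + HahnSeries.single (1 : ℤ) (1 : ZMod p) * b' ^ p) : a = a' ∧ b = b' := by
  haveI : CharP (LaurentSeries (ZMod p)) p := Pool.Agent.Y15.UF.inst_char
  have h1 : (a - a') ^ p = HahnSeries.single (1 : ℤ) (1 : ZMod p) * (b' - b) ^ p := by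
    rw [sub_pow_char, sub_pow_char]
    linear_combination h
  have hb : b' - b = 0 := by
    by_contra hne
    refine tt_pow ((a - a') / (b' - b)) ?_
    rw [div_pow, h1]
    field_simp
  have h2 : (a - a') ^ p = 0 := by
    rw [h1, hb, zero_pow (Fact.out : p.Prime).ne_zero, mul_zero]
  have h3 : a - a' = 0 := by
    exact pow_eq_zero_iff (Fact.out : p.Prime).ne_zero |>.1 h2
  exact ⟨sub_eq_zero.1 h3, (sub_eq_zero.1 hb).symm⟩

theorem cdl_inj (l : List (LaurentSeries (ZMod p))) :
    ∀ l' : List (LaurentSeries (ZMod p)), l.length = l'.length →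
    cdl p (HahnSeries.single (1 : ℤ) (1 : ZMod p)) l =
      cdl p (HahnSeries.single (1 : ℤ) (1 : ZMod p)) l' → l = l' := by
  induction l with
  | nil =>
    intro l' h _
    exact (List.length_eq_zero_iff.1 h.symm).symm
  | cons a l ih =>
    intro l' h h'
    cases l' with
    | nil => simp at h
    | cons a' l' =>
      simp only [List.length_cons, Nat.add_right_cancel_iff] at h
      obtain ⟨h1, h2⟩ := JJ_inj _ _ _ _ h'
      rw [h1, ih l' h h2]

/-- the set of the codes of the pairs `(x, y)` with `R x y` -/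
def cdSet {n m : ℕ}
    (R : (Fin n → LaurentSeries (ZMod p)) → (Fin m → LaurentSeries (ZMod p)) → Prop) :
    Set (LaurentSeries (ZMod p)) :=
  {z | ∃ x y, R x y ∧
    z = cdl p (HahnSeries.single (1 : ℤ) (1 : ZMod p)) (List.ofFn x ++ List.ofFn y)}

theorem mem_cdSet {n m : ℕ}
    (R : (Fin n → LaurentSeries (ZMod p)) → (Fin m → LaurentSeries (ZMod p)) → Prop)
    (x : Fin n → LaurentSeries (ZMod p)) (y : Fin m → LaurentSeries (ZMod p)) :
    cdl p (HahnSeries.single (1 : ℤ) (1 : ZMod p)) (List.ofFn x ++ List.ofFn y) ∈ cdSet R ↔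
      R x y := by
  constructor
  · rintro ⟨x', y', h1, h2⟩
    have h3 := cdl_inj _ _ (by simp) h2
    have h4 := List.append_inj h3 (by simp)
    rw [List.ofFn_injective h4.1, List.ofFn_injective h4.2]
    exact h1
  · intro h
    exact ⟨x, y, h, rfl⟩

/-- the relation `R` is definable from the set of the codes -/
theorem rel_cdSet {n m : ℕ}
    (R : (Fin n → LaurentSeries (ZMod p)) → (Fin m → LaurentSeries (ZMod p)) → Prop)
    (v : ℕ → LaurentSeries (ZMod p))
    (hv : v (20 + 2 * (n + m)) = HahnSeries.single (1 : ℤ) (1 : ZMod p)) :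
    RelN (n := n) (m := m) (cdSet R) (relF p (n + m)) v = R := by
  funext x y
  apply propext
  unfold RelN
  rw [sat_relF, map_asg, ← mem_cdSet R x y]
  have h1 : asg x y v (20 + 2 * (n + m)) = v (20 + 2 * (n + m)) := by
    have h2 : ¬ (20 + 2 * (n + m) < n) := by omega
    have h3 : ¬ (20 + 2 * (n + m) - n < m) := by omega
    simp [asg, h2, h3]
  rw [h1, hv]

end Val

end Pool.Agent.R794.FP
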