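import Pool.Agent.R794.FP.Many

/-! # Finiteness of the set of locally constant values -/

set_option autoImplicit false

namespace Pool.Agent.R794.FP

open Function
open Pool.Agent.Y924.EL
open Pool.Agent.Y924.UF
open Pool.Agent.Y410.UF

variable {p : ℕ} [Fact p.Prime]

/-- a set inside `(c O)^n` with at most one element in every coset of `(b O)^n` is finite -/
theorem finite_ofN {n : ℕ} (b c : LaurentSeries (ZMod p)) (hb : b ≠ 0) (hc : c ≠ 0)
    (S : Set (Fin n → LaurentSeries (ZMod p))) (h1 : ∀ x ∈ S, ∀ i, w (x i) ≤ w c)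
    (h2 : ∀ x ∈ S, ∀ y ∈ S, (∀ i, w (x i - y i) ≤ w b) → x = y) : S.Finite := by
  classical
  have hwb : w b ≠ 0 := (Valuation.ne_zero_iff _).2 hb
  have hwc : w c ≠ 0 := (Valuation.ne_zero_iff _).2 hc
  set f : (Fin n → LaurentSeries (ZMod p)) →
      (Fin n → Finset.Ico (-WithZero.log (w c)) (-WithZero.log (w b)) → ZMod p) :=
    fun x i k => (x i).coeff k with hf
  refine Set.Finite.of_finite_image (f := f) (Set.toFinite _) ?_
  intro x hx y hy hxy
  refine h2 x hx y hy fun i => ?_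
  rw [w, LaurentSeries.valuation_le_iff_coeff_lt_log_eq_zero _ hwb]
  intro k hk
  rw [HahnSeries.coeff_sub]
  by_cases hn2 : k < -WithZero.log (w c)
  · rw [(LaurentSeries.valuation_le_iff_coeff_lt_log_eq_zero _ hwc).1 (h1 x hx i) k hn2,
      (LaurentSeries.valuation_le_iff_coeff_lt_log_eq_zero _ hwc).1 (h1 y hy i) k hn2, sub_zero]
  · have := congrFun (congrFun hxy i) ⟨k, Finset.mem_Ico.2 ⟨not_lt.1 hn2, hk⟩⟩
    simp only [hf] at this
    rw [this, sub_self]

/-- the locally constant values of a relation `R` between `K^n` and `K^m`: the `y` for which there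
are `x` with `R x y` and a neighbourhood `x + (b O)^n` of `x` such that `R x' y'`, with `x'` in this
neighbourhood, implies `y' = y` -/
def LCVn {n m : ℕ}
    (R : (Fin n → LaurentSeries (ZMod p)) → (Fin m → LaurentSeries (ZMod p)) → Prop) :
    Set (Fin m → LaurentSeries (ZMod p)) :=
  {y | ∃ x, R x y ∧ ∃ b : LaurentSeries (ZMod p), b ≠ 0 ∧
    ∀ x' y', R x' y' → (∀ i, ∃ z, z ∈ OO p ∧ b * z + x i = x' i) → y' = y}

/-- the locally constant values of the `j`-th coordinate -/
def LCVj {n m : ℕ}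
    (R : (Fin n → LaurentSeries (ZMod p)) → (Fin m → LaurentSeries (ZMod p)) → Prop)
    (j : Fin m) : Set (LaurentSeries (ZMod p)) :=
  {t | ∃ x, (∃ y, R x y ∧ y j = t) ∧ ∃ b : LaurentSeries (ZMod p), b ≠ 0 ∧
    ∀ x' y', R x' y' → (∀ i, ∃ z, z ∈ OO p ∧ b * z + x i = x' i) → y' j = t}

theorem lcvj_finite (hVAL : S_VAL) (P : Set (LaurentSeries (ZMod p)))
    (huni : ∀ φ : Fm, ∃ N : ℕ, ∀ v, (DefP P φ v).Finite → (DefP P φ v).ncard ≤ N)
    (φ : Fm) (n m : ℕ) (j : Fin m) : ∃ N : ℕ, ∀ v : ℕ → LaurentSeries (ZMod p),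
      (LCVj (RelN (n := n) (m := m) P φ v) j).Finite ∧
      (LCVj (RelN (n := n) (m := m) P φ v) j).ncard ≤ N := by
  classical
  have hval := (hVAL p).1
  obtain ⟨N, hN⟩ := huni (lcF (p + 1) n m j φ)
  refine ⟨N, fun v => ?_⟩
  set R := RelN (n := n) (m := m) P φ v with hR
  -- every finite subset has at most `N` elements
  have hmain : ∀ F : Finset (LaurentSeries (ZMod p)), (F : Set (LaurentSeries (ZMod p))) ⊆
      LCVj R j → F.card ≤ N := by
    intro F hFA
    choose! ξ hξ β hβ0 hβ using fun y (hy : y ∈ LCVj R j) => hy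
    obtain ⟨b, hbF, hb⟩ := Finset.exists_min_image (insert 1 (F.image β)) w ⟨1, by simp⟩
    obtain ⟨c, hcF, hc⟩ := Finset.exists_max_image
      (insert 1 ((F ×ˢ (Finset.univ : Finset (Fin n))).image fun q => ξ q.1 q.2)) w ⟨1, by simp⟩
    have hb0 : b ≠ 0 := by
      rcases Finset.mem_insert.1 hbF with h | h
      · rw [h]; exact one_ne_zero
      · obtain ⟨x, hx, rfl⟩ := Finset.mem_image.1 h
        exact hβ0 x (hFA hx)
    have hc0 : c ≠ 0 := by
      have h1 : w (1 : LaurentSeries (ZMod p)) ≤ w c := hc 1 (by simp)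
      intro h
      rw [h] at h1
      simp [w] at h1
    set A' := DefP P (lcF (p + 1) n m j φ)
      (parN n b c (HahnSeries.single (1 : ℤ) (1 : ZMod p)) v) with hA'
    have hbx : ∀ x y : LaurentSeries (ZMod p), (∃ z, z ∈ OO p ∧ b * z + x = y) ↔
        w (y - x) ≤ w b := by
      intro x y
      rw [← mem_mul_OO hb0]
      constructor
      · rintro ⟨z, hz, h⟩
        exact ⟨z, hz, by rw [← h]; ring⟩
      · rintro ⟨z, hz, h⟩
        exact ⟨z, hz, by rw [h]; ring⟩
    have hmem : ∀ t, t ∈ A' ↔ ∃ x, (∃ y, R x y ∧ y j = t) ∧ (∀ i, w (x i) ≤ w c) ∧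
        ∀ x' y', R x' y' → (∀ i, w (x' i - x i) ≤ w b) → y' j = t := by
      intro t
      have := sat_lcF P (p + 1) φ (n := n) j v b c (HahnSeries.single (1 : ℤ) (1 : ZMod p)) t
      simp only [← hval, mem_mul_OO hc0, hbx] at this
      exact this
    have hfin : A'.Finite := by
      choose! η hη1 hη2 hη3 using fun y (hy : y ∈ A') => (hmem y).1 hy
      have hinj : ∀ y ∈ A', ∀ y' ∈ A', (∀ i, w (η y i - η y' i) ≤ w b) → y = y' := by
        intro y hy y' hy' h
        obtain ⟨y0, h1, h2⟩ := hη1 y hy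
        rw [← h2]
        exact hη3 y' hy' (η y) y0 h1 h
      refine Set.Finite.of_finite_image (f := η) (finite_ofN b c hb0 hc0 _ ?_ ?_) ?_
      · rintro _ ⟨y, hy, rfl⟩
        exact hη2 y hy
      · rintro _ ⟨y, hy, rfl⟩ _ ⟨y', hy', rfl⟩ h
        rw [hinj y hy y' hy' h]
      · intro y hy y' hy' h
        refine hinj y hy y' hy' fun i => ?_
        rw [h, sub_self]
        simp [w]
    have hsub : (F : Set (LaurentSeries (ZMod p))) ⊆ A' := by
      intro y hy
      rw [hmem]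
      refine ⟨ξ y, hξ y (hFA hy), fun i => hc _ (Finset.mem_insert_of_mem
        (Finset.mem_image.2 ⟨(y, i), Finset.mem_product.2 ⟨hy, Finset.mem_univ _⟩, rfl⟩)),
        fun x' y' h1 h2 => ?_⟩
      refine hβ y (hFA hy) x' y' h1 fun i => ?_
      have h3 : w (x' i - ξ y i) ≤ w (β y) :=
        (h2 i).trans (hb _ (Finset.mem_insert_of_mem (Finset.mem_image_of_mem β hy)))
      obtain ⟨z, hz, h⟩ := (mem_mul_OO (hβ0 y (hFA hy)) (x' i - ξ y i)).2 h3
      exact ⟨z, hz, by rw [h]; ring⟩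
    have h1 : A'.ncard ≤ N := hN _ hfin
    have h2 : F.card ≤ A'.ncard := by
      rw [← Set.ncard_coe_finset]
      exact Set.ncard_le_ncard hsub hfin
    omega
  have hfin : (LCVj R j).Finite := by
    by_contra hinf
    obtain ⟨F, hFA, hFN⟩ := Set.Infinite.exists_subset_card_eq hinf (N + 1)
    have := hmain F hFA
    omega
  refine ⟨hfin, ?_⟩
  have := hmain hfin.toFinset (by simp)
  rwa [← Set.ncard_eq_toFinset_card _ hfin] at this

theorem lcvn_finite (hVAL : S_VAL) (P : Set (LaurentSeries (ZMod p)))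
    (huni : ∀ φ : Fm, ∃ N : ℕ, ∀ v, (DefP P φ v).Finite → (DefP P φ v).ncard ≤ N)
    (φ : Fm) (n m : ℕ) : ∃ N : ℕ, ∀ v : ℕ → LaurentSeries (ZMod p),
      (LCVn (RelN (n := n) (m := m) P φ v)).Finite ∧
      (LCVn (RelN (n := n) (m := m) P φ v)).ncard ≤ N := by
  classical
  choose N hN using fun j : Fin m => lcvj_finite hVAL P huni φ n m j
  refine ⟨∏ j, N j, fun v => ?_⟩
  set R := RelN (n := n) (m := m) P φ v with hR
  have hfj : ∀ j, (LCVj R j).Finite := fun j => (hN j v).1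
  have hsub : LCVn R ⊆ (Fintype.piFinset fun j => (hfj j).toFinset : Finset _) := by
    rintro y ⟨x, h1, b, hb, h2⟩
    rw [Finset.mem_coe, Fintype.mem_piFinset]
    intro j
    rw [Set.Finite.mem_toFinset]
    exact ⟨x, ⟨y, h1, rfl⟩, b, hb, fun x' y' h3 h4 => by rw [h2 x' y' h3 h4]⟩
  refine ⟨(Finset.finite_toSet _).subset hsub, ?_⟩
  refine (Set.ncard_le_ncard hsub (Finset.finite_toSet _)).trans ?_
  rw [Set.ncard_coe_finset, Fintype.card_piFinset]
  refine Finset.prod_le_prod' fun j _ => ?_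
  rw [← Set.ncard_eq_toFinset_card _ (hfj j)]
  exact (hN j v).2

end Pool.Agent.R794.FP
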