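import Pool.Agent.R794.FP.ManyF
import Pool.Agent.R794.FP.Fin

/-! # Finiteness of the set of locally finite values -/

set_option autoImplicit false

namespace Pool.Agent.R794.FP

open Function
open Pool.Agent.Y924.EL
open Pool.Agent.Y924.UF
open Pool.Agent.Y410.UF

variable {p : ℕ} [Fact p.Prime]

/-- there are finitely many cosets of `(b O)^n` in `(c O)^n` -/
theorem exists_cf (n : ℕ) (b c : LaurentSeries (ZMod p)) (hb : b ≠ 0) (hc : c ≠ 0) :
    ∃ (ι : Type) (_ : Finite ι) (f : (Fin n → LaurentSeries (ZMod p)) → ι),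
      ∀ x y : Fin n → LaurentSeries (ZMod p), (∀ i, w (x i) ≤ w c) → (∀ i, w (y i) ≤ w c) →
        f x = f y → ∀ i, w (x i - y i) ≤ w b := by
  classical
  have hwb : w b ≠ 0 := (Valuation.ne_zero_iff _).2 hb
  have hwc : w c ≠ 0 := (Valuation.ne_zero_iff _).2 hc
  refine ⟨Fin n → Finset.Ico (-WithZero.log (w c)) (-WithZero.log (w b)) → ZMod p,
    inferInstance, fun x i k => (x i).coeff k, fun x y hx hy hxy i => ?_⟩
  rw [w, LaurentSeries.valuation_le_iff_coeff_lt_log_eq_zero _ hwb]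
  intro k hk
  rw [HahnSeries.coeff_sub]
  by_cases hn2 : k < -WithZero.log (w c)
  · rw [(LaurentSeries.valuation_le_iff_coeff_lt_log_eq_zero _ hwc).1 (hx i) k hn2,
      (LaurentSeries.valuation_le_iff_coeff_lt_log_eq_zero _ hwc).1 (hy i) k hn2, sub_zero]
  · have := congrFun (congrFun hxy i) ⟨k, Finset.mem_Ico.2 ⟨not_lt.1 hn2, hk⟩⟩
    simp only at this
    rw [this, sub_self]

/-- a finite set with at most `k` elements is covered by `k` points -/
theorem exists_cover {K : Type} [Zero K] (S : Set K) (hS : S.Finite) (k : ℕ) (hk : S.ncard ≤ k) :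
    ∃ s : Fin k → K, ∀ t ∈ S, ∃ l, t = s l := by
  classical
  set T := hS.toFinset with hT
  have hc : T.card ≤ k := by
    rw [hT, ← Set.ncard_eq_toFinset_card _ hS]
    exact hk
  refine ⟨fun l => if h : (l : ℕ) < T.card then (T.equivFin.symm ⟨l, h⟩ : K) else 0,
    fun t ht => ?_⟩
  have ht' : t ∈ T := by rw [hT, Set.Finite.mem_toFinset]; exact ht
  have h1 : (T.equivFin ⟨t, ht'⟩ : ℕ) < T.card := (T.equivFin ⟨t, ht'⟩).2
  refine ⟨⟨T.equivFin ⟨t, ht'⟩, lt_of_lt_of_le h1 hc⟩, ?_⟩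
  simp

/-- the locally finite values of a relation `R` between `K^n` and `K^m`: the `y` for which there
are `x` with `R x y` and a neighbourhood `x + (b O)^n` of `x` such that there are only finitely
many `y'` with `R x' y'` for some `x'` in this neighbourhood -/
def LFn {n m : ℕ}
    (R : (Fin n → LaurentSeries (ZMod p)) → (Fin m → LaurentSeries (ZMod p)) → Prop) :
    Set (Fin m → LaurentSeries (ZMod p)) :=
  {y | ∃ x, R x y ∧ ∃ b : LaurentSeries (ZMod p), b ≠ 0 ∧
    {y' | ∃ x', R x' y' ∧ ∀ i, ∃ z, z ∈ OO p ∧ b * z + x i = x' i}.Finite}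

/-- the locally finite values of the `j`-th coordinate -/
def LFj {n m : ℕ}
    (R : (Fin n → LaurentSeries (ZMod p)) → (Fin m → LaurentSeries (ZMod p)) → Prop)
    (j : Fin m) : Set (LaurentSeries (ZMod p)) :=
  {t | ∃ x, (∃ y, R x y ∧ y j = t) ∧ ∃ b : LaurentSeries (ZMod p), b ≠ 0 ∧
    {t' | ∃ x' y', R x' y' ∧ (∀ i, ∃ z, z ∈ OO p ∧ b * z + x i = x' i) ∧ y' j = t'}.Finite}

theorem lfj_finite (hVAL : S_VAL) (P : Set (LaurentSeries (ZMod p)))
    (huni : ∀ φ : Fm, ∃ N : ℕ, ∀ v, (DefP P φ v).Finite → (DefP P φ v).ncard ≤ N)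
    (φ : Fm) (n m : ℕ) (j : Fin m) : ∃ N : ℕ, ∀ v : ℕ → LaurentSeries (ZMod p),
      (LFj (RelN (n := n) (m := m) P φ v) j).Finite ∧
      (LFj (RelN (n := n) (m := m) P φ v) j).ncard ≤ N := by
  classical
  have hval := (hVAL p).1
  obtain ⟨k, hk⟩ := huni (nbF (p + 1) n n m j φ)
  obtain ⟨N, hN⟩ := huni (lfF (p + 1) n m k j φ)
  refine ⟨N, fun v => ?_⟩
  set R := RelN (n := n) (m := m) P φ v with hR
  set τ : LaurentSeries (ZMod p) := HahnSeries.single (1 : ℤ) (1 : ZMod p) with hτ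
  -- the sets of the values near a point
  have hnb : ∀ (b : LaurentSeries (ZMod p)) (x : Fin n → LaurentSeries (ZMod p)),
      {t' | ∃ x' y', R x' y' ∧ (∀ i, ∃ z, z ∈ OO p ∧ b * z + x i = x' i) ∧ y' j = t'}.Finite →
      {t' | ∃ x' y', R x' y' ∧ (∀ i, ∃ z, z ∈ OO p ∧ b * z + x i = x' i) ∧ y' j = t'}.ncard
        ≤ k := by
    intro b x h
    set f : ℕ → LaurentSeries (ZMod p) := fun i => if h : i - 20 < n then x ⟨i - 20, h⟩ else 0
      with hf
    have hf1 : ∀ i : Fin n, f (20 + i) = x i := by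
      intro i
      have h6 : 20 + (i : ℕ) - 20 = i := by omega
      simp [hf, h6]
    have h1 : DefP P (nbF (p + 1) n n m j φ) (ovr (parN n b 0 τ v) f (pts n)) =
        {t' | ∃ x' y', R x' y' ∧ (∀ i, ∃ z, z ∈ OO p ∧ b * z + x i = x' i) ∧ y' j = t'} := by
      ext t
      have h2 : update (ovr (parN n b 0 τ v) f (pts n)) 0 t =
          ovr (update (parN n b 0 τ v) 0 t) f (pts n) := by
        funext i
        by_cases hi : i = 0
        · subst hi
          have h3 : (0 : ℕ) ∉ pts n := by rw [mem_pts]; omega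
          simp [ovr, h3]
        · simp [ovr, update_of_ne hi]
      have h3 := sat_nbF P f (p + 1) (le_refl n) φ j b 0 τ t v
      rw [← h2] at h3
      simp only [hf1, ← hval] at h3
      exact h3
    rw [← h1] at h ⊢
    exact hk _ h
  -- every finite subset has at most `N` elements
  have hmain : ∀ F : Finset (LaurentSeries (ZMod p)), (F : Set (LaurentSeries (ZMod p))) ⊆
      LFj R j → F.card ≤ N := by
    intro F hFA
    choose! ξ hξ β hβ0 hβ using fun y (hy : y ∈ LFj R j) => hy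
    obtain ⟨b, hbF, hb⟩ := Finset.exists_min_image (insert 1 (F.image β)) w ⟨1, by simp⟩
    obtain ⟨c, hcF, hc⟩ := Finset.exists_max_image
      (insert 1 ((F ×ˢ (Finset.univ : Finset (Fin n))).image fun q => ξ q.1 q.2)) w ⟨1, by simp⟩
    have hb0 : b ≠ 0 := by
      rcases Finset.mem_insert.1 hbF with h | h
      · rw [h]; exact one_ne_zero
      · obtain ⟨x, hx, rfl⟩ := Finset.mem_image.1 h
        exact hβ0 x (hFA hx)
    have hc0 : c ≠ 0 := by
      have h1 : w (1 : LaurentSeries (ZMod p)) ≤ w c := hc 1 (by simp)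
      intro h
      rw [h] at h1
      simp [w] at h1
    set A' := DefP P (lfF (p + 1) n m k j φ) (parN (n + k) b c τ v) with hA'
    have hbx : ∀ (a : LaurentSeries (ZMod p)), a ≠ 0 → ∀ x y : LaurentSeries (ZMod p),
        (∃ z, z ∈ OO p ∧ a * z + x = y) ↔ w (y - x) ≤ w a := by
      intro a ha x y
      rw [← mem_mul_OO ha]
      constructor
      · rintro ⟨z, hz, h⟩
        exact ⟨z, hz, by rw [← h]; ring⟩
      · rintro ⟨z, hz, h⟩
        exact ⟨z, hz, by rw [h]; ring⟩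
    have hmem : ∀ t, t ∈ A' ↔ ∃ (x : Fin n → LaurentSeries (ZMod p))
        (s : Fin k → LaurentSeries (ZMod p)), (∃ y, R x y ∧ y j = t) ∧ (∀ i, w (x i) ≤ w c) ∧
        ∀ x' y', R x' y' → (∀ i, w (x' i - x i) ≤ w b) → ∃ l, y' j = s l := by
      intro t
      have := sat_lfF P (p + 1) k φ (n := n) j v b c τ t
      simp only [← hval, mem_mul_OO hc0, hbx b hb0] at this
      exact this
    have hfin : A'.Finite := by
      choose! η σ hη1 hη2 hη3 using fun y (hy : y ∈ A') => (hmem y).1 hy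
      obtain ⟨ι, hι, cf, hcf⟩ := exists_cf n b c hb0 hc0
      have hrep : ∀ κ : ι, ∃ s : Fin k → LaurentSeries (ZMod p), ∀ t ∈ A', cf (η t) = κ →
          ∃ l, t = s l := by
        intro κ
        by_cases hex : ∃ t0 ∈ A', cf (η t0) = κ
        · obtain ⟨t0, ht0, hκ⟩ := hex
          refine ⟨σ t0, fun t ht hκ' => ?_⟩
          obtain ⟨y, h1, h2⟩ := hη1 t ht
          obtain ⟨l, hl⟩ := hη3 t0 ht0 (η t) y h1
            (hcf _ _ (hη2 t ht) (hη2 t0 ht0) (hκ'.trans hκ.symm))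
          exact ⟨l, by rw [← h2, hl]⟩
        · exact ⟨fun _ => 0, fun t ht hκ => absurd ⟨t, ht, hκ⟩ hex⟩
      choose s hs using hrep
      refine (Set.finite_range (fun q : ι × Fin k => s q.1 q.2)).subset fun t ht => ?_
      obtain ⟨l, hl⟩ := hs (cf (η t)) t ht rfl
      exact ⟨(cf (η t), l), hl.symm⟩
    have hsub : (F : Set (LaurentSeries (ZMod p))) ⊆ A' := by
      intro y hy
      rw [hmem]
      have hy' := hFA hy
      have h0 : {t' | ∃ x' y', R x' y' ∧ (∀ i, ∃ z, z ∈ OO p ∧ b * z + ξ y i = x' i) ∧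
          y' j = t'} ⊆ {t' | ∃ x' y', R x' y' ∧ (∀ i, ∃ z, z ∈ OO p ∧ β y * z + ξ y i = x' i) ∧
          y' j = t'} := by
        rintro t' ⟨x', y', h1, h2, h3⟩
        refine ⟨x', y', h1, fun i => ?_, h3⟩
        have h4 := (hbx b hb0 _ _).1 (h2 i)
        exact (hbx (β y) (hβ0 y hy') _ _).2
          (h4.trans (hb _ (Finset.mem_insert_of_mem (Finset.mem_image_of_mem β hy))))
      have h1 := (hβ y hy').subset h0
      obtain ⟨s, hs⟩ := exists_cover _ h1 k (hnb b (ξ y) h1)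
      refine ⟨ξ y, s, hξ y hy', fun i => hc _ (Finset.mem_insert_of_mem
        (Finset.mem_image.2 ⟨(y, i), Finset.mem_product.2 ⟨hy, Finset.mem_univ _⟩, rfl⟩)),
        fun x' y' h2 h3 => ?_⟩
      exact hs _ ⟨x', y', h2, fun i => (hbx b hb0 _ _).2 (h3 i), rfl⟩
    have h1 : A'.ncard ≤ N := hN _ hfin
    have h2 : F.card ≤ A'.ncard := by
      rw [← Set.ncard_coe_finset]
      exact Set.ncard_le_ncard hsub hfin
    omega
  have hfin : (LFj R j).Finite := by
    by_contra hinf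
    obtain ⟨F, hFA, hFN⟩ := Set.Infinite.exists_subset_card_eq hinf (N + 1)
    have := hmain F hFA
    omega
  refine ⟨hfin, ?_⟩
  have := hmain hfin.toFinset (by simp)
  rwa [← Set.ncard_eq_toFinset_card _ hfin] at this

theorem lfn_finite (hVAL : S_VAL) (P : Set (LaurentSeries (ZMod p)))
    (huni : ∀ φ : Fm, ∃ N : ℕ, ∀ v, (DefP P φ v).Finite → (DefP P φ v).ncard ≤ N)
    (φ : Fm) (n m : ℕ) : ∃ N : ℕ, ∀ v : ℕ → LaurentSeries (ZMod p),
      (LFn (RelN (n := n) (m := m) P φ v)).Finite ∧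
      (LFn (RelN (n := n) (m := m) P φ v)).ncard ≤ N := by
  classical
  choose N hN using fun j : Fin m => lfj_finite hVAL P huni φ n m j
  refine ⟨∏ j, N j, fun v => ?_⟩
  set R := RelN (n := n) (m := m) P φ v with hR
  have hfj : ∀ j, (LFj R j).Finite := fun j => (hN j v).1
  have hsub : LFn R ⊆ (Fintype.piFinset fun j => (hfj j).toFinset : Finset _) := by
    rintro y ⟨x, h1, b, hb, h2⟩
    rw [Finset.mem_coe, Fintype.mem_piFinset]
    intro j
    rw [Set.Finite.mem_toFinset]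
    refine ⟨x, ⟨y, h1, rfl⟩, b, hb, (h2.image (fun y => y j)).subset ?_⟩
    rintro t ⟨x', y', h3, h4, h5⟩
    exact ⟨y', ⟨x', h3, h4⟩, h5⟩
  refine ⟨(Finset.finite_toSet _).subset hsub, ?_⟩
  refine (Set.ncard_le_ncard hsub (Finset.finite_toSet _)).trans ?_
  rw [Set.ncard_coe_finset, Fintype.card_piFinset]
  refine Finset.prod_le_prod' fun j _ => ?_
  rw [← Set.ncard_eq_toFinset_card _ (hfj j)]
  exact (hN j v).2

theorem lcvn_sub {n m : ℕ}
    (R : (Fin n → LaurentSeries (ZMod p)) → (Fin m → LaurentSeries (ZMod p)) → Prop) :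
    LCVn R ⊆ LFn R := by
  rintro y ⟨x, h1, b, hb, h2⟩
  refine ⟨x, h1, b, hb, (Set.finite_singleton y).subset ?_⟩
  rintro y' ⟨x', h3, h4⟩
  exact h2 x' y' h3 h4

end Pool.Agent.R794.FP
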