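import Pool.Agent.Y924.UF.Scat

/-! # Locally constant values of definable relations over `F_p((t))`: several variables -/

set_option autoImplicit false

namespace Pool.Agent.R794.FP

open Function
open Pool.Agent.Y924.EL
open Pool.Agent.Y924.UF
open Pool.Agent.Y410.UF

/-! ## blocks of quantifiers, conjunctions -/

/-- existential quantification of the variables `x_i`, `i ∈ l` -/
def exs : List ℕ → Fm → Fm
  | [], φ => φ
  | i :: l, φ => .ex i (exs l φ)

/-- the conjunction of the formulas of a list -/
def ands : List Fm → Fm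
  | [] => .neg (.and (.eq 0 0) (.neg (.eq 0 0)))
  | φ :: l => .and φ (ands l)

/-- the assignment `f` on the variables in `l`, `v` elsewhere -/
def ovr {K : Type*} (v f : ℕ → K) (l : List ℕ) (i : ℕ) : K := if i ∈ l then f i else v i

theorem sat_exs {K : Type*} [Add K] [Mul K] [One K] (O : Set K) (φ : Fm) (l : List ℕ) :
    ∀ v : ℕ → K, Sat O (exs l φ) v ↔ ∃ f : ℕ → K, Sat O φ (ovr v f l) := by
  induction l with
  | nil =>
    intro v
    have : ∀ f : ℕ → K, ovr v f [] = v := fun f => by funext i; simp [ovr]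
    simp only [exs, this]
    exact ⟨fun h => ⟨v, h⟩, fun ⟨_, h⟩ => h⟩
  | cons i l ih =>
    intro v
    simp only [exs, Sat, ih]
    constructor
    · rintro ⟨a, f, h⟩
      refine ⟨fun j => if j ∈ l then f j else a, ?_⟩
      convert h using 1
      funext j
      by_cases h1 : j ∈ l
      · simp [ovr, h1]
      · by_cases h2 : j = i
        · subst h2
          simp [ovr, h1]
        · simp [ovr, h1, h2]
    · rintro ⟨f, h⟩
      refine ⟨f i, f, ?_⟩
      convert h using 1
      funext j
      by_cases h1 : j ∈ l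
      · simp [ovr, h1]
      · by_cases h2 : j = i
        · subst h2
          simp [ovr, h1]
        · simp [ovr, h1, h2]

theorem sat_ands {K : Type*} [Add K] [Mul K] [One K] (O : Set K) (l : List Fm) (v : ℕ → K) :
    Sat O (ands l) v ↔ ∀ φ ∈ l, Sat O φ v := by
  induction l with
  | nil => simp [ands, Sat]
  | cons φ l ih => simp [ands, Sat, ih]

/-! ## relations between `K^n` and `K^m` -/

/-- the assignment which gives `x_0, ..., x_(n-1)` the values `x`, `x_n, ..., x_(n+m-1)` the values
`y`, and the other variables the values of `v` -/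
def asg {K : Type*} {n m : ℕ} (x : Fin n → K) (y : Fin m → K) (v : ℕ → K) (i : ℕ) : K :=
  if h : i < n then x ⟨i, h⟩ else if h' : i - n < m then y ⟨i - n, h'⟩ else v i

/-- the relation between `x` in `K^n` and `y` in `K^m` defined by the formula `φ` in the variables
`x_0, ..., x_(n+m-1)`, with the parameters `v (n + m), v (n + m + 1), ...` -/
def RelN {K : Type*} [Add K] [Mul K] [One K] (P : Set K) (φ : Fm) {n m : ℕ} (v : ℕ → K)
    (x : Fin n → K) (y : Fin m → K) : Prop :=
  Sat P φ (asg x y v)

/-- the parameters of `LF` -/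
def parN {K : Type*} (n : ℕ) (b c τ : K) (v : ℕ → K) (i : ℕ) : K :=
  if i = 10 then b else if i = 11 then c else if i = 9 then τ else v (i - (20 + n))

/-- the renaming -/
def shN (n i : ℕ) : ℕ := i + (20 + n)

theorem shN_inj (n : ℕ) : Injective (shN n) := fun i j h => by unfold shN at h; omega

/-- the variables for the relation -/
def blk (n m : ℕ) : List ℕ := (List.range (n + m)).map (shN n)

/-- the variables for the point -/
def pts (n : ℕ) : List ℕ := (List.range n).map (fun i => 20 + i)

/-- the formula for the `j`-th coordinates of the values which are isolated at scale `x_10 O`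
inside `x_11 O` -/
def lcF (q n m j : ℕ) (φ : Fm) : Fm :=
  exs (pts n) (.and
    (exs (blk n m) (.and (ren (shN n) φ) (.and
      (ands ((List.range n).map fun i => .eq (shN n i) (20 + i))) (.eq (shN n (n + j)) 0))))
    (.and (ands ((List.range n).map fun i => .ex 5 (.and (OTg q) (.mul 11 5 (20 + i)))))
      (.neg (exs (blk n m) (.and (ren (shN n) φ) (.and
        (ands ((List.range n).map fun i =>
          .ex 5 (.ex 6 (.and (OTg q) (.and (.mul 10 5 6) (.add 6 (20 + i) (shN n i)))))))
        (.neg (.eq (shN n (n + j)) 0))))))))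

theorem mem_blk (n m i : ℕ) : i ∈ blk n m ↔ 20 + n ≤ i ∧ i < 20 + n + (n + m) := by
  simp only [blk, List.mem_map, List.mem_range, shN]
  constructor
  · rintro ⟨a, ha, rfl⟩
    omega
  · rintro ⟨h1, h2⟩
    exact ⟨i - (20 + n), by omega, by omega⟩

theorem mem_pts (n i : ℕ) : i ∈ pts n ↔ 20 ≤ i ∧ i < 20 + n := by
  simp only [pts, List.mem_map, List.mem_range]
  constructor
  · rintro ⟨a, ha, rfl⟩
    omega
  · rintro ⟨h1, h2⟩
    exact ⟨i - 20, by omega, by omega⟩

/-- the assignment after the quantification of a point and of the variables of the relation -/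
theorem ovr_blk {K : Type*} {n m : ℕ} (b c τ t : K) (v f g : ℕ → K) :
    (ovr (ovr (update (parN n b c τ v) 0 t) f (pts n)) g (blk n m)) ∘ shN n =
      asg (fun i : Fin n => g (shN n i)) (fun j : Fin m => g (shN n (n + j))) v := by
  funext i
  simp only [comp_apply, ovr, mem_blk, mem_pts, asg]
  by_cases h1 : i < n
  · have h2 : 20 + n ≤ shN n i ∧ shN n i < 20 + n + (n + m) := by unfold shN; omega
    simp [h1, h2]
  · by_cases h3 : i - n < m
    · have h2 : 20 + n ≤ shN n i ∧ shN n i < 20 + n + (n + m) := by unfold shN; omega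
      have h4 : n + (i - n) = i := by omega
      simp [h1, h2, h3, h4]
    · have h2 : ¬ (20 + n ≤ shN n i ∧ shN n i < 20 + n + (n + m)) := by unfold shN; omega
      have h4 : ¬ (20 ≤ shN n i ∧ shN n i < 20 + n) := by unfold shN; omega
      have h5 : shN n i ≠ 0 := by unfold shN; omega
      have h6 : shN n i ≠ 10 := by unfold shN; omega
      have h7 : shN n i ≠ 11 := by unfold shN; omega
      have h8 : shN n i ≠ 9 := by unfold shN; omega
      have h9 : shN n i - (20 + n) = i := by unfold shN; omega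
      simp [h1, h2, h3, h4, h5, h6, h7, h8, h9, parN, update_apply]

theorem ren_blk {K : Type*} [Add K] [Mul K] [One K] (O : Set K) (φ : Fm) {n m : ℕ}
    (b c τ t : K) (v f g : ℕ → K) :
    Sat O (ren (shN n) φ) (ovr (ovr (update (parN n b c τ v) 0 t) f (pts n)) g (blk n m)) ↔
      RelN O φ v (fun i : Fin n => g (shN n i)) (fun j : Fin m => g (shN n (n + j))) := by
  rw [sat_ren O (shN_inj n), ovr_blk]
  rfl

/-- an assignment of the variables of the block with given values -/
def grd {K : Type*} {n m : ℕ} (x : Fin n → K) (y : Fin m → K) (v : ℕ → K) (i : ℕ) : K :=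
  asg x y v (i - (20 + n))

theorem grd_x {K : Type*} {n m : ℕ} (x : Fin n → K) (y : Fin m → K) (v : ℕ → K) (i : Fin n) :
    grd x y v (shN n i) = x i := by
  have h1 : shN n i - (20 + n) = i := by unfold shN; omega
  simp [grd, h1, asg]

theorem grd_y {K : Type*} {n m : ℕ} (x : Fin n → K) (y : Fin m → K) (v : ℕ → K) (j : Fin m) :
    grd x y v (shN n (n + j)) = y j := by
  have h1 : shN n (n + j) - (20 + n) = n + j := by unfold shN; omega
  have h2 : ¬ (n + (j : ℕ) < n) := by omega
  have h3 : n + (j : ℕ) - n = j := by omega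
  simp [grd, h1, asg, h2, h3]

theorem sat_lcF {K : Type} [CommRing K] (O : Set K) (q : ℕ) (φ : Fm) {n m : ℕ} (j : Fin m)
    (v : ℕ → K) (b c τ t : K) :
    Sat O (lcF q n m j φ) (update (parN n b c τ v) 0 t) ↔
      ∃ x : Fin n → K, (∃ y : Fin m → K, RelN O φ v x y ∧ y j = t) ∧
        (∀ i, ∃ z, OT q τ z ∧ c * z = x i) ∧
        ∀ (x' : Fin n → K) (y' : Fin m → K), RelN O φ v x' y' →
          (∀ i, ∃ z, OT q τ z ∧ b * z + x i = x' i) → y' j = t := by
  unfold lcF
  rw [sat_exs]
  simp only [Sat, sat_exs, ren_blk, sat_ands, List.mem_map, List.mem_range]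
  -- values of the assignments
  have e1 : ∀ (f g : ℕ → K) (i : ℕ), i < n →
      ovr (ovr (update (parN n b c τ v) 0 t) f (pts n)) g (blk n m) (20 + i) = f (20 + i) := by
    intro f g i hi
    have h1 : ¬ (20 + n ≤ 20 + i ∧ 20 + i < 20 + n + (n + m)) := by omega
    have h2 : 20 ≤ 20 + i ∧ 20 + i < 20 + n := by omega
    simp only [ovr, mem_blk, mem_pts, h1, h2, if_false, if_true, and_self]
  have e2 : ∀ (f g : ℕ → K) (i : ℕ), i < n + m →
      ovr (ovr (update (parN n b c τ v) 0 t) f (pts n)) g (blk n m) (shN n i) = g (shN n i) := by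
    intro f g i hi
    have h1 : 20 + n ≤ shN n i ∧ shN n i < 20 + n + (n + m) := by unfold shN; omega
    simp only [ovr, mem_blk, h1, if_true, and_self]
  have e3 : ∀ (f g : ℕ → K) (i : ℕ), i < 20 →
      ovr (ovr (update (parN n b c τ v) 0 t) f (pts n)) g (blk n m) i =
        update (parN n b c τ v) 0 t i := by
    intro f g i hi
    have h1 : ¬ (20 + n ≤ i ∧ i < 20 + n + (n + m)) := by omega
    have h2 : ¬ (20 ≤ i ∧ i < 20 + n) := by omega
    simp only [ovr, mem_blk, mem_pts, h1, h2, if_false]
  have e4 : ∀ (f : ℕ → K) (i : ℕ), i < 20 →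
      ovr (update (parN n b c τ v) 0 t) f (pts n) i = update (parN n b c τ v) 0 t i := by
    intro f i hi
    have h2 : ¬ (20 ≤ i ∧ i < 20 + n) := by omega
    simp only [ovr, mem_pts, h2, if_false]
  have e5 : ∀ (f : ℕ → K) (i : ℕ), i < n →
      ovr (update (parN n b c τ v) 0 t) f (pts n) (20 + i) = f (20 + i) := by
    intro f i hi
    have h2 : 20 ≤ 20 + i ∧ 20 + i < 20 + n := by omega
    simp only [ovr, mem_pts, h2, if_true, and_self]
  have hj : n + (j : ℕ) < n + m := by omega
  -- the atomic parts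
  have a1 : ∀ f g : ℕ → K, (∀ ψ : Fm, (∃ a < n, Fm.eq (shN n a) (20 + a) = ψ) →
      Sat O ψ (ovr (ovr (update (parN n b c τ v) 0 t) f (pts n)) g (blk n m))) ↔
      ∀ i < n, g (shN n i) = f (20 + i) := by
    intro f g
    constructor
    · intro h i hi
      have := h _ ⟨i, hi, rfl⟩
      simpa only [Sat, e1 f g i hi, e2 f g i (by omega)] using this
    · rintro h ψ ⟨i, hi, rfl⟩
      simpa only [Sat, e1 f g i hi, e2 f g i (by omega)] using h i hi
  have a2 : ∀ f : ℕ → K, (∀ ψ : Fm, (∃ a < n, Fm.ex 5 (.and (OTg q) (.mul 11 5 (20 + a))) = ψ) →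
      Sat O ψ (ovr (update (parN n b c τ v) 0 t) f (pts n))) ↔
      ∀ i < n, ∃ z, OT q τ z ∧ c * z = f (20 + i) := by
    intro f
    have hh : ∀ i < n, (Sat O (Fm.ex 5 (.and (OTg q) (.mul 11 5 (20 + i))))
        (ovr (update (parN n b c τ v) 0 t) f (pts n)) ↔
        ∃ z, OT q τ z ∧ c * z = f (20 + i)) := by
      intro i hi
      simp only [Sat, sat_OTg]
      have h5 : 20 + i ≠ 5 := by omega
      simp only [update_self, update_of_ne h5, update_of_ne (show (9:ℕ) ≠ 5 by norm_num),
        update_of_ne (show (11:ℕ) ≠ 5 by norm_num), e4 f 9 (by norm_num), e4 f 11 (by norm_num),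
        e5 f i hi, update_of_ne (show (9:ℕ) ≠ 0 by norm_num),
        update_of_ne (show (11:ℕ) ≠ 0 by norm_num)]
      simp [parN]
    constructor
    · intro h i hi
      exact (hh i hi).1 (h _ ⟨i, hi, rfl⟩)
    · rintro h ψ ⟨i, hi, rfl⟩
      exact (hh i hi).2 (h i hi)
  have a3 : ∀ f g : ℕ → K, (∀ ψ : Fm, (∃ a < n, Fm.ex 5 (.ex 6 (.and (OTg q)
        (.and (.mul 10 5 6) (.add 6 (20 + a) (shN n a))))) = ψ) →
      Sat O ψ (ovr (ovr (update (parN n b c τ v) 0 t) f (pts n)) g (blk n m))) ↔
      ∀ i < n, ∃ z, OT q τ z ∧ b * z + f (20 + i) = g (shN n i) := by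
    intro f g
    have hh : ∀ i < n, (Sat O (Fm.ex 5 (.ex 6 (.and (OTg q)
        (.and (.mul 10 5 6) (.add 6 (20 + i) (shN n i))))))
        (ovr (ovr (update (parN n b c τ v) 0 t) f (pts n)) g (blk n m)) ↔
        ∃ z, OT q τ z ∧ b * z + f (20 + i) = g (shN n i)) := by
      intro i hi
      simp only [Sat, sat_OTg]
      have h5 : 20 + i ≠ 5 := by omega
      have h6 : 20 + i ≠ 6 := by omega
      have h7 : shN n i ≠ 5 := by unfold shN; omega
      have h8 : shN n i ≠ 6 := by unfold shN; omega
      simp only [update_self, update_of_ne h5, update_of_ne h6, update_of_ne h7, update_of_ne h8,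
        update_of_ne (show (9:ℕ) ≠ 5 by norm_num), update_of_ne (show (9:ℕ) ≠ 6 by norm_num),
        update_of_ne (show (10:ℕ) ≠ 5 by norm_num), update_of_ne (show (10:ℕ) ≠ 6 by norm_num),
        update_of_ne (show (5:ℕ) ≠ 6 by norm_num), e3 f g 9 (by norm_num),
        e3 f g 10 (by norm_num), e1 f g i hi, e2 f g i (by omega),
        update_of_ne (show (9:ℕ) ≠ 0 by norm_num), update_of_ne (show (10:ℕ) ≠ 0 by norm_num)]
      constructor
      · rintro ⟨z, z', hz, h1, h2⟩
        refine ⟨z, by simpa [parN] using hz, ?_⟩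
        have h1' : b * z = z' := by simpa [parN] using h1
        rw [h1']; exact h2
      · rintro ⟨z, hz, h2⟩
        exact ⟨z, b * z, by simpa [parN] using hz, by simp [parN], h2⟩
    constructor
    · intro h i hi
      exact (hh i hi).1 (h _ ⟨i, hi, rfl⟩)
    · rintro h ψ ⟨i, hi, rfl⟩
      exact (hh i hi).2 (h i hi)
  have a4 : ∀ f g : ℕ → K,
      (ovr (ovr (update (parN n b c τ v) 0 t) f (pts n)) g (blk n m) (shN n (n + j)) =
        ovr (ovr (update (parN n b c τ v) 0 t) f (pts n)) g (blk n m) 0 ↔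
      g (shN n (n + j)) = t) := by
    intro f g
    rw [e2 f g _ hj, e3 f g 0 (by norm_num), update_self]
  simp only [a1, a2, a3, a4]
  constructor
  · rintro ⟨f, ⟨g, h1, h2, h3⟩, h4, h5⟩
    refine ⟨fun i => f (20 + i), ⟨fun j => g (shN n (n + j)), ?_, h3⟩, fun i => h4 i i.2,
      fun x' y' h6 h7 => ?_⟩
    · convert h1 using 1
      funext i
      exact (h2 i i.2).symm
    · by_contra hne
      apply h5
      refine ⟨grd x' y' v, ?_, ?_, ?_⟩
      · convert h6 using 1
        · funext i
          exact grd_x x' y' v i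
        · funext i
          exact grd_y x' y' v i
      · intro i hi
        obtain ⟨z, hz, hz2⟩ := h7 ⟨i, hi⟩
        refine ⟨z, hz, ?_⟩
        have := grd_x x' y' v ⟨i, hi⟩
        simp only at this
        rw [this]
        exact hz2
      · rw [grd_y]
        exact hne
  · rintro ⟨x, ⟨y, h1, h2⟩, h3, h4⟩
    refine ⟨fun i => if h : i - 20 < n then x ⟨i - 20, h⟩ else v 0, ⟨grd x y v, ?_, ?_, ?_⟩,
      ?_, ?_⟩
    · convert h1 using 1
      · funext i
        exact grd_x x y v i
      · funext i
        exact grd_y x y v i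
    · intro i hi
      have h5 := grd_x x y v ⟨i, hi⟩
      simp only at h5
      have h6 : 20 + i - 20 = i := by omega
      rw [h5]
      simp [h6, hi]
    · rw [grd_y]
      exact h2
    · intro i hi
      have h6 : 20 + i - 20 = i := by omega
      simpa [h6, hi] using h3 ⟨i, hi⟩
    · rintro ⟨g, h5, h6, h7⟩
      apply h7
      refine h4 _ _ h5 fun i => ?_
      have h8 := h6 i i.2
      have h9 : 20 + (i : ℕ) - 20 = i := by omega
      simpa [h9, i.2] using h8

end Pool.Agent.R794.FP
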