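import Pool.Agent.R794.FP.Many

/-! # Locally finite values of definable relations over `F_p((t))`: the formulas -/

set_option autoImplicit false

namespace Pool.Agent.R794.FP

open Function
open Pool.Agent.Y924.EL
open Pool.Agent.Y924.UF
open Pool.Agent.Y410.UF

/-- the variables for the relation -/
def blS (s L : ℕ) : List ℕ := (List.range L).map (shN s)

theorem mem_blS (s L i : ℕ) : i ∈ blS s L ↔ 20 + s ≤ i ∧ i < 20 + s + L := by
  simp only [blS, List.mem_map, List.mem_range, shN]
  constructor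
  · rintro ⟨a, ha, rfl⟩
    omega
  · rintro ⟨h1, h2⟩
    exact ⟨i - (20 + s), by omega, by omega⟩

/-- the points of the variables of the relation are the points `x_20, ..., x_(19 + n)` -/
def sameF (s n : ℕ) : Fm := ands ((List.range n).map fun i => .eq (shN s i) (20 + i))

/-- the points of the variables of the relation are near the points `x_20, ..., x_(19 + n)` -/
def nearF (q s n : ℕ) : Fm := ands ((List.range n).map fun i =>
  .ex 5 (.ex 6 (.and (OTg q) (.and (.mul 10 5 6) (.add 6 (20 + i) (shN s i))))))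

/-- the points `x_20, ..., x_(19 + n)` are in `x_11 O` -/
def inF (q n : ℕ) : Fm := ands ((List.range n).map fun i =>
  .ex 5 (.and (OTg q) (.mul 11 5 (20 + i))))

/-- `x_0` is a `j`-th coordinate of a value of the relation at a point near `x_20, ...` -/
def nbF (q s n m j : ℕ) (φ : Fm) : Fm :=
  exs (blS s (n + m)) (.and (ren (shN s) φ) (.and (nearF q s n) (.eq (shN s (n + j)) 0)))

/-- the formula for the `j`-th coordinates of the values which are among `k` values at
scale `x_10 O` inside `x_11 O` -/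
def lfF (q n m k j : ℕ) (φ : Fm) : Fm :=
  exs (pts (n + k)) (.and
    (exs (blS (n + k) (n + m)) (.and (ren (shN (n + k)) φ) (.and
      (sameF (n + k) n) (.eq (shN (n + k) (n + j)) 0))))
    (.and (inF q n)
      (.neg (exs (blS (n + k) (n + m)) (.and (ren (shN (n + k)) φ) (.and
        (nearF q (n + k) n)
        (ands ((List.range k).map fun i => .neg (.eq (shN (n + k) (n + j)) (20 + n + i))))))))))

section

variable {K : Type} [CommRing K] (O : Set K) {n m s : ℕ}

omit [CommRing K] in
/-- the assignment after the quantification of a point and of the variables of the relation -/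
theorem ovr_blS (b c τ t : K) (v f g : ℕ → K) :
    (ovr (ovr (update (parN s b c τ v) 0 t) f (pts s)) g (blS s (n + m))) ∘ shN s =
      asg (fun i : Fin n => g (shN s i)) (fun j : Fin m => g (shN s (n + j))) v := by
  funext i
  simp only [comp_apply, ovr, mem_blS, mem_pts, asg]
  by_cases h1 : i < n
  · have h2 : 20 + s ≤ shN s i ∧ shN s i < 20 + s + (n + m) := by unfold shN; omega
    simp [h1, h2]
  · by_cases h3 : i - n < m
    · have h2 : 20 + s ≤ shN s i ∧ shN s i < 20 + s + (n + m) := by unfold shN; omega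
      have h4 : n + (i - n) = i := by omega
      simp [h1, h2, h3, h4]
    · have h2 : ¬ (20 + s ≤ shN s i ∧ shN s i < 20 + s + (n + m)) := by unfold shN; omega
      have h4 : ¬ (20 ≤ shN s i ∧ shN s i < 20 + s) := by unfold shN; omega
      have h5 : shN s i ≠ 0 := by unfold shN; omega
      have h6 : shN s i ≠ 10 := by unfold shN; omega
      have h7 : shN s i ≠ 11 := by unfold shN; omega
      have h8 : shN s i ≠ 9 := by unfold shN; omega
      have h9 : shN s i - (20 + s) = i := by unfold shN; omega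
      simp [h1, h2, h3, h4, h5, h6, h7, h8, h9, parN]

theorem ren_blS (φ : Fm) (b c τ t : K) (v f g : ℕ → K) :
    Sat O (ren (shN s) φ) (ovr (ovr (update (parN s b c τ v) 0 t) f (pts s)) g
      (blS s (n + m))) ↔
      RelN O φ v (fun i : Fin n => g (shN s i)) (fun j : Fin m => g (shN s (n + j))) := by
  rw [sat_ren O (shN_inj s), ovr_blS]
  rfl

/-- an assignment of the variables of the block with given values -/
def grS (s : ℕ) (x : Fin n → K) (y : Fin m → K) (v : ℕ → K) (i : ℕ) : K :=
  asg x y v (i - (20 + s))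

omit [CommRing K] in
theorem grS_x (x : Fin n → K) (y : Fin m → K) (v : ℕ → K) (i : Fin n) :
    grS s x y v (shN s i) = x i := by
  have h1 : shN s i - (20 + s) = i := by unfold shN; omega
  simp [grS, h1, asg]

omit [CommRing K] in
theorem grS_y (x : Fin n → K) (y : Fin m → K) (v : ℕ → K) (j : Fin m) :
    grS s x y v (shN s (n + j)) = y j := by
  have h1 : shN s (n + j) - (20 + s) = n + j := by unfold shN; omega
  have h2 : ¬ (n + (j : ℕ) < n) := by omega
  have h3 : n + (j : ℕ) - n = j := by omega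
  simp [grS, h1, asg, h2, h3]

variable (u f g : ℕ → K)

omit [CommRing K] in
theorem v1 (L i : ℕ) (hi : i < s) : ovr (ovr u f (pts s)) g (blS s L) (20 + i) = f (20 + i) := by
  have h1 : ¬ (20 + s ≤ 20 + i ∧ 20 + i < 20 + s + L) := by omega
  have h2 : 20 ≤ 20 + i ∧ 20 + i < 20 + s := by omega
  simp only [ovr, mem_blS, mem_pts, h1, h2, if_false, if_true, and_self]

omit [CommRing K] in
theorem v2 (L i : ℕ) (hi : i < L) :
    ovr (ovr u f (pts s)) g (blS s L) (shN s i) = g (shN s i) := by
  have h1 : 20 + s ≤ shN s i ∧ shN s i < 20 + s + L := by unfold shN; omega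
  simp only [ovr, mem_blS, h1, if_true, and_self]

omit [CommRing K] in
theorem v3 (L i : ℕ) (hi : i < 20) : ovr (ovr u f (pts s)) g (blS s L) i = u i := by
  have h1 : ¬ (20 + s ≤ i ∧ i < 20 + s + L) := by omega
  have h2 : ¬ (20 ≤ i ∧ i < 20 + s) := by omega
  simp only [ovr, mem_blS, mem_pts, h1, h2, if_false]

omit [CommRing K] in
theorem v4 (i : ℕ) (hi : i < 20) : ovr u f (pts s) i = u i := by
  have h2 : ¬ (20 ≤ i ∧ i < 20 + s) := by omega
  simp only [ovr, mem_pts, h2, if_false]

omit [CommRing K] in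
theorem v5 (i : ℕ) (hi : i < s) : ovr u f (pts s) (20 + i) = f (20 + i) := by
  have h2 : 20 ≤ 20 + i ∧ 20 + i < 20 + s := by omega
  simp only [ovr, mem_pts, h2, if_true, and_self]

theorem sat_sameF (hs : n ≤ s) (L : ℕ) (hL : n ≤ L) :
    Sat O (sameF s n) (ovr (ovr u f (pts s)) g (blS s L)) ↔
      ∀ i < n, g (shN s i) = f (20 + i) := by
  unfold sameF
  rw [sat_ands]
  simp only [List.mem_map, List.mem_range]
  constructor
  · intro h i hi
    have := h _ ⟨i, hi, rfl⟩
    simpa only [Sat, v1 u f g L i (lt_of_lt_of_le hi hs), v2 u f g L i (lt_of_lt_of_le hi hL)]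
      using this
  · rintro h ψ ⟨i, hi, rfl⟩
    simpa only [Sat, v1 u f g L i (lt_of_lt_of_le hi hs), v2 u f g L i (lt_of_lt_of_le hi hL)]
      using h i hi

theorem sat_inF (q : ℕ) (hs : n ≤ s) (b c τ t : K) (v : ℕ → K) :
    Sat O (inF q n) (ovr (update (parN s b c τ v) 0 t) f (pts s)) ↔
      ∀ i < n, ∃ z, OT q τ z ∧ c * z = f (20 + i) := by
  unfold inF
  rw [sat_ands]
  simp only [List.mem_map, List.mem_range]
  have hh : ∀ i < n, (Sat O (Fm.ex 5 (.and (OTg q) (.mul 11 5 (20 + i))))
      (ovr (update (parN s b c τ v) 0 t) f (pts s)) ↔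
      ∃ z, OT q τ z ∧ c * z = f (20 + i)) := by
    intro i hi
    simp only [Sat, sat_OTg]
    have h5 : 20 + i ≠ 5 := by omega
    simp only [update_self, update_of_ne h5, update_of_ne (show (9:ℕ) ≠ 5 by norm_num),
      update_of_ne (show (11:ℕ) ≠ 5 by norm_num), v4 _ f 9 (by norm_num),
      v4 _ f 11 (by norm_num), v5 _ f i (lt_of_lt_of_le hi hs),
      update_of_ne (show (9:ℕ) ≠ 0 by norm_num), update_of_ne (show (11:ℕ) ≠ 0 by norm_num)]
    simp [parN]
  constructor
  · intro h i hi
    exact (hh i hi).1 (h _ ⟨i, hi, rfl⟩)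
  · rintro h ψ ⟨i, hi, rfl⟩
    exact (hh i hi).2 (h i hi)

theorem sat_nearF (q : ℕ) (hs : n ≤ s) (L : ℕ) (hL : n ≤ L) (b c τ t : K) (v : ℕ → K) :
    Sat O (nearF q s n) (ovr (ovr (update (parN s b c τ v) 0 t) f (pts s)) g (blS s L)) ↔
      ∀ i < n, ∃ z, OT q τ z ∧ b * z + f (20 + i) = g (shN s i) := by
  unfold nearF
  rw [sat_ands]
  simp only [List.mem_map, List.mem_range]
  have hh : ∀ i < n, (Sat O (Fm.ex 5 (.ex 6 (.and (OTg q)
      (.and (.mul 10 5 6) (.add 6 (20 + i) (shN s i))))))
      (ovr (ovr (update (parN s b c τ v) 0 t) f (pts s)) g (blS s L)) ↔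
      ∃ z, OT q τ z ∧ b * z + f (20 + i) = g (shN s i)) := by
    intro i hi
    simp only [Sat, sat_OTg]
    have h5 : 20 + i ≠ 5 := by omega
    have h6 : 20 + i ≠ 6 := by omega
    have h7 : shN s i ≠ 5 := by unfold shN; omega
    have h8 : shN s i ≠ 6 := by unfold shN; omega
    simp only [update_self, update_of_ne h5, update_of_ne h6, update_of_ne h7, update_of_ne h8,
      update_of_ne (show (9:ℕ) ≠ 5 by norm_num), update_of_ne (show (9:ℕ) ≠ 6 by norm_num),
      update_of_ne (show (10:ℕ) ≠ 5 by norm_num), update_of_ne (show (10:ℕ) ≠ 6 by norm_num),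
      update_of_ne (show (5:ℕ) ≠ 6 by norm_num), v3 _ f g L 9 (by norm_num),
      v3 _ f g L 10 (by norm_num), v1 _ f g L i (lt_of_lt_of_le hi hs),
      v2 _ f g L i (lt_of_lt_of_le hi hL),
      update_of_ne (show (9:ℕ) ≠ 0 by norm_num), update_of_ne (show (10:ℕ) ≠ 0 by norm_num)]
    constructor
    · rintro ⟨z, z', hz, h1, h2⟩
      refine ⟨z, by simpa [parN] using hz, ?_⟩
      have h1' : b * z = z' := by simpa [parN] using h1
      rw [h1']; exact h2
    · rintro ⟨z, hz, h2⟩
      exact ⟨z, b * z, by simpa [parN] using hz, by simp [parN], h2⟩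
  constructor
  · intro h i hi
    exact (hh i hi).1 (h _ ⟨i, hi, rfl⟩)
  · rintro h ψ ⟨i, hi, rfl⟩
    exact (hh i hi).2 (h i hi)

theorem sat_nbF (q : ℕ) (hs : n ≤ s) (φ : Fm) (j : Fin m) (b c τ t : K) (v : ℕ → K) :
    Sat O (nbF q s n m j φ) (ovr (update (parN s b c τ v) 0 t) f (pts s)) ↔
      ∃ (x' : Fin n → K) (y' : Fin m → K), RelN O φ v x' y' ∧
        (∀ i : Fin n, ∃ z, OT q τ z ∧ b * z + f (20 + i) = x' i) ∧ y' j = t := by
  unfold nbF
  have hj : n + (j : ℕ) < n + m := by omega
  simp only [sat_exs, Sat, ren_blS, sat_nearF O f _ q hs (n + m) (by omega), v2 _ f _ _ _ hj,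
    v3 _ f _ _ 0 (by norm_num), update_self]
  constructor
  · rintro ⟨g, h1, h2, h3⟩
    exact ⟨_, _, h1, fun i => h2 i i.2, h3⟩
  · rintro ⟨x', y', h1, h2, h3⟩
    refine ⟨grS s x' y' v, ?_, ?_, ?_⟩
    · convert h1 using 1
      · funext i
        exact grS_x x' y' v i
      · funext i
        exact grS_y x' y' v i
    · intro i hi
      obtain ⟨z, hz, hz2⟩ := h2 ⟨i, hi⟩
      refine ⟨z, hz, ?_⟩
      have := grS_x (s := s) x' y' v ⟨i, hi⟩
      simp only at this
      rw [this]
      exact hz2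
    · rw [grS_y]
      exact h3

end

theorem sat_lfF {K : Type} [CommRing K] (O : Set K) (q k : ℕ) (φ : Fm) {n m : ℕ} (j : Fin m)
    (v : ℕ → K) (b c τ t : K) :
    Sat O (lfF q n m k j φ) (update (parN (n + k) b c τ v) 0 t) ↔
      ∃ (x : Fin n → K) (s : Fin k → K), (∃ y : Fin m → K, RelN O φ v x y ∧ y j = t) ∧
        (∀ i, ∃ z, OT q τ z ∧ c * z = x i) ∧
        ∀ (x' : Fin n → K) (y' : Fin m → K), RelN O φ v x' y' →
          (∀ i, ∃ z, OT q τ z ∧ b * z + x i = x' i) → ∃ l, y' j = s l := by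
  unfold lfF
  have hj : n + (j : ℕ) < n + m := by omega
  have hs : n ≤ n + k := by omega
  have a5 : ∀ f g : ℕ → K,
      (Sat O (ands ((List.range k).map fun i => .neg (.eq (shN (n + k) (n + j)) (20 + n + i))))
        (ovr (ovr (update (parN (n + k) b c τ v) 0 t) f (pts (n + k))) g
          (blS (n + k) (n + m))) ↔ ∀ i < k, g (shN (n + k) (n + j)) ≠ f (20 + n + i)) := by
    intro f g
    rw [sat_ands]
    simp only [List.mem_map, List.mem_range]
    have hh : ∀ i < k, (Sat O (Fm.neg (.eq (shN (n + k) (n + j)) (20 + n + i)))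
        (ovr (ovr (update (parN (n + k) b c τ v) 0 t) f (pts (n + k))) g
          (blS (n + k) (n + m))) ↔ g (shN (n + k) (n + j)) ≠ f (20 + n + i)) := by
      intro i hi
      have h1 := v1 (s := n + k) (update (parN (n + k) b c τ v) 0 t) f g (n + m) (n + i)
        (by omega)
      rw [← add_assoc] at h1
      simp only [Sat, v2 _ f g _ _ hj, h1, ne_eq]
    constructor
    · intro h i hi
      exact (hh i hi).1 (h _ ⟨i, hi, rfl⟩)
    · rintro h ψ ⟨i, hi, rfl⟩
      exact (hh i hi).2 (h i hi)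
  rw [sat_exs]
  simp only [Sat, sat_exs, ren_blS, sat_sameF O _ _ _ hs (n + m) (by omega),
    sat_nearF O _ _ q hs (n + m) (by omega), sat_inF O _ q hs, a5, v2 _ _ _ _ _ hj,
    v3 _ _ _ _ 0 (show 0 < 20 by norm_num), update_self]
  constructor
  · rintro ⟨f, ⟨g, h1, h2, h3⟩, h4, h5⟩
    refine ⟨fun i => f (20 + i), fun l => f (20 + n + l),
      ⟨fun j => g (shN (n + k) (n + j)), ?_, h3⟩, fun i => h4 i i.2, fun x' y' h6 h7 => ?_⟩
    · convert h1 using 1
      funext i
      exact (h2 i i.2).symm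
    · by_contra hne
      push Not at hne
      apply h5
      refine ⟨grS (n + k) x' y' v, ?_, ?_, ?_⟩
      · convert h6 using 1
        · funext i
          exact grS_x x' y' v i
        · funext i
          exact grS_y x' y' v i
      · intro i hi
        obtain ⟨z, hz, hz2⟩ := h7 ⟨i, hi⟩
        refine ⟨z, hz, ?_⟩
        have := grS_x (s := n + k) x' y' v ⟨i, hi⟩
        simp only at this
        rw [this]
        exact hz2
      · intro i hi
        rw [grS_y]
        exact hne ⟨i, hi⟩
  · rintro ⟨x, s, ⟨y, h1, h2⟩, h3, h4⟩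
    set f : ℕ → K := fun i => if h : i - 20 < n then x ⟨i - 20, h⟩ else
      if h' : i - (20 + n) < k then s ⟨i - (20 + n), h'⟩ else v 0 with hf
    have hf1 : ∀ (i : ℕ) (hi : i < n), f (20 + i) = x ⟨i, hi⟩ := by
      intro i hi
      have h6 : 20 + i - 20 = i := by omega
      simp [hf, h6, hi]
    have hf2 : ∀ (i : ℕ) (hi : i < k), f (20 + n + i) = s ⟨i, hi⟩ := by
      intro i hi
      have h6 : ¬ (20 + n + i - 20 < n) := by omega
      have h7 : 20 + n + i - (20 + n) = i := by omega
      simp [hf, h6, h7, hi]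
    refine ⟨f, ⟨grS (n + k) x y v, ?_, ?_, ?_⟩, ?_, ?_⟩
    · convert h1 using 1
      · funext i
        exact grS_x x y v i
      · funext i
        exact grS_y x y v i
    · intro i hi
      have h5 := grS_x (s := n + k) x y v ⟨i, hi⟩
      simp only at h5
      rw [h5, hf1 i hi]
    · rw [grS_y]
      exact h2
    · intro i hi
      rw [hf1 i hi]
      exact h3 ⟨i, hi⟩
    · rintro ⟨g, h5, h6, h7⟩
      obtain ⟨l, hl⟩ := h4 _ _ h5 fun i => by
        have h8 := h6 i i.2
        rwa [hf1 i i.2] at h8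
      exact h7 l l.2 (by rw [hf2 l l.2]; exact hl)

end Pool.Agent.R794.FP
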