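import Pool.Agent.R794.FP.Code
import Pool.Agent.R794.FP.FinF

/-! # Least elements of the intersections with balls: the formula -/

set_option autoImplicit false

namespace Pool.Agent.R794.FP

open Function
open Pool.Agent.Y924.EL
open Pool.Agent.Y924.UF
open Pool.Agent.Y410.UF

/-- the assignment which gives `x_0, ..., x_(n-1)` the values `x` -/
def asD {K : Type*} {n : ℕ} (x : Fin n → K) (v : ℕ → K) (i : ℕ) : K :=
  if h : i < n then x ⟨i, h⟩ else v i

/-- `x_W, x_(W+1), ...` is near `x_20, x_21, ...` at scale `x_10` -/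
def nearI (q n W : ℕ) : Fm := ands ((List.range n).map fun i =>
  .ex 5 (.ex 6 (.and (OTg q) (.and (.mul 10 5 6) (.add 6 (20 + i) (W + i))))))

theorem sat_nearI {K : Type} [CommRing K] (O : Set K) (q n W : ℕ) (hW : 20 ≤ W) (u : ℕ → K) :
    Sat O (nearI q n W) u ↔ ∀ i < n, ∃ z, OT q (u 9) z ∧ u 10 * z + u (20 + i) = u (W + i) := by
  unfold nearI
  rw [sat_ands]
  simp only [List.mem_map, List.mem_range]
  have hh : ∀ i < n, (Sat O (Fm.ex 5 (.ex 6 (.and (OTg q)
      (.and (.mul 10 5 6) (.add 6 (20 + i) (W + i)))))) u ↔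
      ∃ z, OT q (u 9) z ∧ u 10 * z + u (20 + i) = u (W + i)) := by
    intro i hi
    simp only [Sat, sat_OTg]
    have h5 : 20 + i ≠ 5 := by omega
    have h6 : 20 + i ≠ 6 := by omega
    have h7 : W + i ≠ 5 := by omega
    have h8 : W + i ≠ 6 := by omega
    simp only [update_self, update_of_ne h5, update_of_ne h6, update_of_ne h7, update_of_ne h8,
      update_of_ne (show (9:ℕ) ≠ 5 by norm_num), update_of_ne (show (9:ℕ) ≠ 6 by norm_num),
      update_of_ne (show (10:ℕ) ≠ 5 by norm_num), update_of_ne (show (10:ℕ) ≠ 6 by norm_num),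
      update_of_ne (show (5:ℕ) ≠ 6 by norm_num)]
    constructor
    · rintro ⟨z, z', hz, h1, h2⟩
      exact ⟨z, hz, by rw [h1]; exact h2⟩
    · rintro ⟨z, hz, h2⟩
      exact ⟨z, _, hz, rfl, h2⟩
  constructor
  · intro h i hi
    exact (hh i hi).1 (h _ ⟨i, hi, rfl⟩)
  · rintro h ψ ⟨i, hi, rfl⟩
    exact (hh i hi).2 (h i hi)

/-- renaming for the set, at `x_(20+n), ...` -/
def sY (n i : ℕ) : ℕ := if i < n then 20 + n + i else 20 + 3 * n + 2 * (i - n)

/-- renaming for the set, at `x_(20+2n), ...` -/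
def sZ (n i : ℕ) : ℕ := if i < n then 20 + 2 * n + i else 20 + 3 * n + 2 * (i - n)

/-- renaming for the relation -/
def sYZ (n i : ℕ) : ℕ := if i < 2 * n then 20 + n + i else 20 + 3 * n + 2 * (i - 2 * n) + 1

theorem sY_inj (n : ℕ) : Injective (sY n) := by
  intro i j h
  unfold sY at h
  split_ifs at h <;> omega

theorem sZ_inj (n : ℕ) : Injective (sZ n) := by
  intro i j h
  unfold sZ at h
  split_ifs at h <;> omega

theorem sYZ_inj (n : ℕ) : Injective (sYZ n) := by
  intro i j h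
  unfold sYZ at h
  split_ifs at h <;> omega

/-- the variables `x_(20+2n), ..., x_(19+3n)` -/
def zbl (n : ℕ) : List ℕ := (List.range n).map (fun i => 20 + 2 * n + i)

theorem mem_zbl (n i : ℕ) : i ∈ zbl n ↔ 20 + 2 * n ≤ i ∧ i < 20 + 3 * n := by
  simp only [zbl, List.mem_map, List.mem_range]
  constructor
  · rintro ⟨a, ha, rfl⟩
    omega
  · rintro ⟨h1, h2⟩
    exact ⟨i - (20 + 2 * n), by omega, by omega⟩

/-- least elements of the intersections with balls -/
def leF0 (q n : ℕ) (δ χ : Fm) : Fm :=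
  .and (ren (sY n) δ) (.and (nearI q n (20 + n)) (.neg (exs (zbl n) (.and (ren (sZ n) δ)
    (.and (nearI q n (20 + 2 * n)) (.neg (ren (sYZ n) χ)))))))

theorem sat_leF0 {K : Type} [CommRing K] (O : Set K) (q n : ℕ) (δ χ : Fm) (u : ℕ → K) :
    Sat O (leF0 q n δ χ) u ↔
      Sat O δ (asD (fun i : Fin n => u (20 + n + i)) (fun i => u (20 + 3 * n + 2 * (i - n)))) ∧
      (∀ i : Fin n, ∃ z, OT q (u 9) z ∧ u 10 * z + u (20 + i) = u (20 + n + i)) ∧
      ∀ Z : Fin n → K, Sat O δ (asD Z (fun i => u (20 + 3 * n + 2 * (i - n)))) →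
        (∀ i : Fin n, ∃ z, OT q (u 9) z ∧ u 10 * z + u (20 + i) = Z i) →
        Sat O χ (asg (fun i : Fin n => u (20 + n + i)) Z
          (fun i => u (20 + 3 * n + 2 * (i - 2 * n) + 1))) := by
  unfold leF0
  simp only [Sat, sat_exs, sat_ren O (sY_inj n), sat_ren O (sZ_inj n), sat_ren O (sYZ_inj n),
    sat_nearI O q n (20 + n) (by omega), sat_nearI O q n (20 + 2 * n) (by omega)]
  have h1 : u ∘ sY n = asD (fun i : Fin n => u (20 + n + i))
      (fun i => u (20 + 3 * n + 2 * (i - n))) := by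
    funext i
    by_cases hi : i < n
    · simp [asD, sY, hi]
    · simp [asD, sY, hi]
  have e0 : ∀ (f : ℕ → K) (i : ℕ), i ∉ zbl n → ovr u f (zbl n) i = u i := by
    intro f i hi
    simp [ovr, hi]
  have e1 : ∀ (f : ℕ → K) (i : ℕ), i ∈ zbl n → ovr u f (zbl n) i = f i := by
    intro f i hi
    simp [ovr, hi]
  have h2 : ∀ f : ℕ → K, ovr u f (zbl n) ∘ sZ n = asD (fun i : Fin n => f (20 + 2 * n + i))
      (fun i => u (20 + 3 * n + 2 * (i - n))) := by
    intro f
    funext i
    by_cases hi : i < n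
    · have h3 : sZ n i = 20 + 2 * n + i := by simp [sZ, hi]
      rw [comp_apply, h3, e1 f _ (by rw [mem_zbl]; omega)]
      simp [asD, hi]
    · have h3 : sZ n i = 20 + 3 * n + 2 * (i - n) := by simp [sZ, hi]
      rw [comp_apply, h3, e0 f _ (by rw [mem_zbl]; omega)]
      simp [asD, hi]
  have h3 : ∀ f : ℕ → K, ovr u f (zbl n) ∘ sYZ n = asg (fun i : Fin n => u (20 + n + i))
      (fun i : Fin n => f (20 + 2 * n + i)) (fun i => u (20 + 3 * n + 2 * (i - 2 * n) + 1)) := by
    intro f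
    funext i
    rw [comp_apply]
    by_cases hi : i < n
    · have h4 : sYZ n i = 20 + n + i := by
        have : i < 2 * n := by omega
        simp [sYZ, this]
      rw [h4, e0 f _ (by rw [mem_zbl]; omega)]
      simp [asg, hi]
    · by_cases hi' : i - n < n
      · have h4 : sYZ n i = 20 + n + i := by
          have : i < 2 * n := by omega
          simp [sYZ, this]
        have h5 : 20 + n + i = 20 + 2 * n + (i - n) := by omega
        rw [h4, e1 f _ (by rw [mem_zbl]; omega), h5]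
        simp [asg, hi, hi']
      · have h4 : sYZ n i = 20 + 3 * n + 2 * (i - 2 * n) + 1 := by
          have : ¬ i < 2 * n := by omega
          simp [sYZ, this]
        rw [h4, e0 f _ (by rw [mem_zbl]; omega)]
        simp [asg, hi, hi']
  rw [h1]
  refine and_congr Iff.rfl (and_congr ?_ ?_)
  · exact ⟨fun h i => h i i.2, fun h i hi => h ⟨i, hi⟩⟩
  · simp only [h2, h3]
    constructor
    · intro h Z hZ hZ'
      by_contra hne
      apply h
      set f : ℕ → K := fun i => if h : i - (20 + 2 * n) < n then Z ⟨i - (20 + 2 * n), h⟩ else u 0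
        with hf
      have hf1 : (fun i : Fin n => f (20 + 2 * n + i)) = Z := by
        funext i
        have h6 : 20 + 2 * n + (i : ℕ) - (20 + 2 * n) = i := by omega
        simp [hf, h6]
      refine ⟨f, by rw [hf1]; exact hZ, fun i hi => ?_, by rw [hf1]; exact hne⟩
      rw [e0 f 9 (by rw [mem_zbl]; omega), e0 f 10 (by rw [mem_zbl]; omega),
        e0 f (20 + i) (by rw [mem_zbl]; omega), e1 f (20 + 2 * n + i) (by rw [mem_zbl]; omega)]
      have h7 := congrFun hf1 ⟨i, hi⟩
      simp only at h7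
      rw [h7]
      exact hZ' ⟨i, hi⟩
    · rintro h ⟨f, h4, h5, h6⟩
      refine h6 (h _ h4 fun i => ?_)
      have h7 := h5 i i.2
      rwa [e0 f 9 (by rw [mem_zbl]; omega), e0 f 10 (by rw [mem_zbl]; omega),
        e0 f (20 + i) (by rw [mem_zbl]; omega),
        e1 f (20 + 2 * n + i) (by rw [mem_zbl]; omega)] at h7

/-- the outer renaming -/
def rho (n j : ℕ) : ℕ :=
  if 20 ≤ j ∧ j < 20 + n then j - 20 else if j = 10 then n else
    if 20 + n ≤ j ∧ j < 20 + 2 * n then j - (20 + n) + (n + 1) else 2 * n + 1 + j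

theorem rho_inj (n : ℕ) : Injective (rho n) := by
  intro i j h
  unfold rho at h
  split_ifs at h <;> omega

/-- the parameters -/
def parO {K : Type*} (n : ℕ) (τ : K) (v w : ℕ → K) (k : ℕ) : K :=
  if k = 2 * n + 1 + 9 then τ else
    if (k - (2 * n + 1) - (20 + 3 * n)) % 2 = 0 then
      v (n + (k - (2 * n + 1) - (20 + 3 * n)) / 2)
    else w (2 * n + (k - (2 * n + 1) - (20 + 3 * n)) / 2)

theorem sat_leF {K : Type} [CommRing K] (O : Set K) (q n : ℕ) (δ χ : Fm) (τ : K) (v w : ℕ → K)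
    (x : Fin n → K) (b : K) (y : Fin n → K) :
    RelN (n := n + 1) (m := n) O (ren (rho n) (leF0 q n δ χ)) (parO n τ v w)
      (Fin.snoc x b : Fin (n + 1) → K) y ↔
      Sat O δ (asD y v) ∧ (∀ i : Fin n, ∃ z, OT q τ z ∧ b * z + x i = y i) ∧
      ∀ Z : Fin n → K, Sat O δ (asD Z v) → (∀ i : Fin n, ∃ z, OT q τ z ∧ b * z + x i = Z i) →
        Sat O χ (asg y Z w) := by
  unfold RelN
  rw [sat_ren O (rho_inj n), sat_leF0]
  set X : Fin (n + 1) → K := Fin.snoc x b with hX
  set u := asg X y (parO n τ v w) ∘ rho n with hu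
  have g1 : ∀ i : Fin n, u (20 + i) = x i := by
    intro i
    have h1 : rho n (20 + i) = i := by
      have h2 : 20 ≤ 20 + (i : ℕ) ∧ 20 + (i : ℕ) < 20 + n := by omega
      simp [rho, h2]
    have h3 : (i : ℕ) < n + 1 := by omega
    rw [hu, comp_apply, h1]
    simp only [asg, h3, dif_pos]
    exact Fin.snoc_castSucc (α := fun _ => K) b x i
  have g2 : u 10 = b := by
    have h1 : rho n 10 = n := by simp [rho]
    rw [hu, comp_apply, h1]
    simp only [asg, Nat.lt_succ_self, dif_pos]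
    exact Fin.snoc_last (α := fun _ => K) b x
  have g3 : ∀ i : Fin n, u (20 + n + i) = y i := by
    intro i
    have h1 : rho n (20 + n + i) = i + (n + 1) := by
      have h2 : ¬ (20 ≤ 20 + n + (i : ℕ) ∧ 20 + n + (i : ℕ) < 20 + n) := by omega
      have h3 : ¬ (20 + n + (i : ℕ) = 10) := by omega
      have h4 : 20 + n ≤ 20 + n + (i : ℕ) ∧ 20 + n + (i : ℕ) < 20 + 2 * n := by omega
      unfold rho
      rw [if_neg h2, if_neg h3, if_pos h4]
      omega
    rw [hu, comp_apply, h1]
    have h5 : ¬ ((i : ℕ) + (n + 1) < n + 1) := by omega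
    have h6 : (i : ℕ) + (n + 1) - (n + 1) = i := by omega
    simp only [asg, dif_neg h5, h6, dif_pos i.2]
  have g4 : ∀ j, ¬ (20 ≤ j ∧ j < 20 + 2 * n) → j ≠ 10 → u j = parO n τ v w (2 * n + 1 + j) := by
    intro j h1 h2
    have h3 : rho n j = 2 * n + 1 + j := by
      have h4 : ¬ (20 ≤ j ∧ j < 20 + n) := by omega
      have h5 : ¬ (20 + n ≤ j ∧ j < 20 + 2 * n) := by omega
      unfold rho
      rw [if_neg h4, if_neg h2, if_neg h5]
    rw [hu, comp_apply, h3]
    have h6 : ¬ (2 * n + 1 + j < n + 1) := by omega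
    have h7 : ¬ (2 * n + 1 + j - (n + 1) < n) := by omega
    simp only [asg, h6, h7, dif_neg, not_false_eq_true]
  have g5 : u 9 = τ := by
    rw [g4 9 (by omega) (by omega)]
    simp [parO]
  have g6 : ∀ i, n ≤ i → u (20 + 3 * n + 2 * (i - n)) = v i := by
    intro i hi
    rw [g4 _ (by omega) (by omega)]
    have h1 : ¬ (2 * n + 1 + (20 + 3 * n + 2 * (i - n)) = 2 * n + 1 + 9) := by omega
    have h2 : 2 * n + 1 + (20 + 3 * n + 2 * (i - n)) - (2 * n + 1) - (20 + 3 * n) =
      2 * (i - n) := by omega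
    unfold parO
    rw [if_neg h1, h2, if_pos (by omega)]
    congr 1
    omega
  have g7 : ∀ i, 2 * n ≤ i → u (20 + 3 * n + 2 * (i - 2 * n) + 1) = w i := by
    intro i hi
    rw [g4 _ (by omega) (by omega)]
    have h1 : ¬ (2 * n + 1 + (20 + 3 * n + 2 * (i - 2 * n) + 1) = 2 * n + 1 + 9) := by omega
    have h2 : 2 * n + 1 + (20 + 3 * n + 2 * (i - 2 * n) + 1) - (2 * n + 1) - (20 + 3 * n) =
      2 * (i - 2 * n) + 1 := by omega
    unfold parO
    rw [if_neg h1, h2, if_neg (by omega)]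
    congr 1
    omega
  have k1 : ∀ Z : Fin n → K, asD Z (fun i => u (20 + 3 * n + 2 * (i - n))) = asD Z v := by
    intro Z
    funext i
    unfold asD
    split_ifs with h
    · rfl
    · exact g6 i (by omega)
  have k2 : ∀ Y Z : Fin n → K, asg Y Z (fun i => u (20 + 3 * n + 2 * (i - 2 * n) + 1)) =
      asg Y Z w := by
    intro Y Z
    funext i
    unfold asg
    split_ifs with h h'
    · rfl
    · rfl
    · exact g7 i (by omega)
  simp only [k1, k2, g1, g2, g3, g5]

end Pool.Agent.R794.FP
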