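import Pool.Agent.R794.FP.Ord

/-! # Least elements of the intersections with balls: topology -/

set_option autoImplicit false

namespace Pool.Agent.R794.FP

open Function
open Pool.Agent.Y924.EL
open Pool.Agent.Y924.UF
open Pool.Agent.Y410.UF

variable {p : ℕ} [Fact p.Prime]

theorem ball_iff (b : LaurentSeries (ZMod p)) (hb : b ≠ 0) (x y : LaurentSeries (ZMod p)) :
    (∃ z, z ∈ OO p ∧ b * z + x = y) ↔ Pool.Agent.Y697.UF.Ag (-WithZero.log (w b)) x y := by
  have hwb : w b ≠ 0 := (Valuation.ne_zero_iff _).2 hb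
  have h1 : (∃ z, z ∈ OO p ∧ b * z + x = y) ↔ w (y - x) ≤ w b := by
    rw [← mem_mul_OO hb]
    constructor
    · rintro ⟨z, hz, h⟩
      exact ⟨z, hz, by rw [← h]; ring⟩
    · rintro ⟨z, hz, h⟩
      exact ⟨z, hz, by rw [h]; ring⟩
  rw [h1, w, LaurentSeries.valuation_le_iff_coeff_lt_log_eq_zero _ hwb]
  unfold Pool.Agent.Y697.UF.Ag
  refine forall_congr' fun k => forall_congr' fun _ => ?_
  rw [HahnSeries.coeff_sub, sub_eq_zero]
  exact eq_comm

theorem near_NB {n : ℕ} (b : LaurentSeries (ZMod p)) (hb : b ≠ 0)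
    (x y : Fin n → LaurentSeries (ZMod p)) : Near b x y ↔ NB (-WithZero.log (w b)) x y :=
  forall_congr' fun i => ball_iff b hb (x i) (y i)

theorem w_stable (b b' : LaurentSeries (ZMod p)) (hb : b ≠ 0)
    (h : Pool.Agent.Y697.UF.Ag (-WithZero.log (w b) + 1) b b') : b' ≠ 0 ∧ w b' = w b := by
  have hwb : w b ≠ 0 := (Valuation.ne_zero_iff _).2 hb
  have h1 : w (b' - b) < w b := by
    refine lt_of_le_of_ne ?_ ?_
    · rw [w, LaurentSeries.valuation_le_iff_coeff_lt_log_eq_zero _ hwb]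
      intro k hk
      rw [HahnSeries.coeff_sub, h k (by linarith), sub_self]
    · intro heq
      have h2 : w b ≤ w (b' - b) := heq.ge
      have h3 : w (b' - b) ≠ 0 := by rw [heq]; exact hwb
      have h4 : w (b' - b) ≤ WithZero.exp (-(-WithZero.log (w b) + 1)) := by
        rw [w, LaurentSeries.valuation_le_iff_coeff_lt_log_eq_zero _ WithZero.exp_ne_zero]
        intro k hk
        rw [WithZero.log_exp, neg_neg] at hk
        rw [HahnSeries.coeff_sub, h k hk, sub_self]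
      rw [heq] at h4
      have h5 : w b = WithZero.exp (WithZero.log (w b)) := (WithZero.exp_log hwb).symm
      rw [h5, WithZero.log_exp] at h4
      have h6 := WithZero.exp_le_exp.1 h4
      omega
  have h2 : w b' = w b := Valuation.map_eq_of_sub_lt _ h1
  refine ⟨fun h3 => hwb ?_, h2⟩
  rw [← h2, h3]
  simp [w]

/-- the least elements of `D ∩ (x + (b O)^n)` -/
def Lst {n : ℕ} (D : Set (Fin n → LaurentSeries (ZMod p)))
    (S : (Fin n → LaurentSeries (ZMod p)) → (Fin n → LaurentSeries (ZMod p)) → Prop)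
    (b : LaurentSeries (ZMod p)) (x : Fin n → LaurentSeries (ZMod p)) :
    Set (Fin n → LaurentSeries (ZMod p)) :=
  {y | y ∈ D ∧ Near b x y ∧ ∀ z ∈ D, Near b x z → S y z}

theorem lst_finite {n : ℕ} (D : Set (Fin n → LaurentSeries (ZMod p)))
    (S : (Fin n → LaurentSeries (ZMod p)) → (Fin n → LaurentSeries (ZMod p)) → Prop)
    (hfin : ∀ x ∈ D, {y | y ∈ D ∧ S x y ∧ S y x}.Finite)
    (b : LaurentSeries (ZMod p)) (x : Fin n → LaurentSeries (ZMod p)) :
    (Lst D S b x).Finite := by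
  by_cases h : (Lst D S b x).Nonempty
  · obtain ⟨y, h1, h2, h3⟩ := h
    refine (hfin y h1).subset ?_
    rintro z ⟨h4, h5, h6⟩
    exact ⟨h4, h3 z h4 h5, h6 y h1 h2⟩
  · rw [Set.not_nonempty_iff_eq_empty.1 h]
    exact Set.finite_empty

theorem ord_finite (hVAL : S_VAL) (P : Set (LaurentSeries (ZMod p)))
    (huni : ∀ φ : Fm, ∃ N : ℕ, ∀ v, (DefP P φ v).Finite → (DefP P φ v).ncard ≤ N)
    (δ χ : Fm) (n : ℕ) : ∃ N : ℕ, ∀ v u : ℕ → LaurentSeries (ZMod p),
      ∀ (D : Set (Fin n → LaurentSeries (ZMod p)))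
        (S : (Fin n → LaurentSeries (ZMod p)) → (Fin n → LaurentSeries (ZMod p)) → Prop),
        (∀ x, x ∈ D ↔ Sat P δ (asD x v)) → (∀ x y, S x y ↔ Sat P χ (asg x y u)) →
        (∀ x ∈ D, {y | y ∈ D ∧ S x y ∧ S y x}.Finite) →
        (∀ x ∈ D, ∃ r0 : ℤ, ∀ r, r0 ≤ r → (Lst D S (HahnSeries.single r (1 : ZMod p)) x).Nonempty)
        → D.Finite ∧ D.ncard ≤ N := by
  classical
  have hval := (hVAL p).1
  obtain ⟨N, hN⟩ := lfn_finite hVAL P huni (ren (rho n) (leF0 (p + 1) n δ χ)) (n + 1) n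
  refine ⟨N, fun v u D S hD hS hfin hle => ?_⟩
  set τ : LaurentSeries (ZMod p) := HahnSeries.single (1 : ℤ) (1 : ZMod p) with hτ
  obtain ⟨h1, h2⟩ := hN (parO n τ v u)
  set R := RelN (n := n + 1) (m := n) P (ren (rho n) (leF0 (p + 1) n δ χ)) (parO n τ v u) with hR
  have hRiff : ∀ (x : Fin n → LaurentSeries (ZMod p)) (b : LaurentSeries (ZMod p))
      (y : Fin n → LaurentSeries (ZMod p)),
      R (Fin.snoc x b : Fin (n + 1) → LaurentSeries (ZMod p)) y ↔ y ∈ Lst D S b x := by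
    intro x b y
    have h3 := sat_leF P (p + 1) n δ χ τ v u x b y
    simp only [← hval, ← hD, ← hS] at h3
    exact h3
  have hsub : ∀ (x : Fin n → LaurentSeries (ZMod p)) (b : LaurentSeries (ZMod p)), b ≠ 0 →
      Lst D S b x ⊆ LFn R := by
    intro x b hb y hy
    refine ⟨Fin.snoc x b, (hRiff x b y).2 hy,
      HahnSeries.single (-WithZero.log (w b) + 1) (1 : ZMod p), single_ne _,
      (lst_finite D S hfin b x).subset ?_⟩
    rintro y' ⟨X', h3, h4⟩
    have h5 : NB (-WithZero.log (w b) + 1)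
        (Fin.snoc x b : Fin (n + 1) → LaurentSeries (ZMod p)) X' := (near_single _ _ _).1 h4
    have h6 : X' = Fin.snoc (Fin.init X') (X' (Fin.last n)) := (Fin.snoc_init_self X').symm
    rw [h6, hRiff] at h3
    have h7 := h5 (Fin.last n)
    rw [Fin.snoc_last] at h7
    obtain ⟨hb', hw⟩ := w_stable b _ hb h7
    have h8 : NB (-WithZero.log (w b)) x (Fin.init X') := by
      intro i
      have h9 := h5 (Fin.castSucc i)
      rw [Fin.snoc_castSucc] at h9
      intro k hk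
      exact h9 k (by linarith)
    have h9 : ∀ z, Near (X' (Fin.last n)) (Fin.init X' : Fin n → LaurentSeries (ZMod p)) z ↔
        Near b x z := by
      intro z
      rw [near_NB _ hb', near_NB b hb, hw]
      exact ⟨fun h => h8.trans h, fun h => h8.symm.trans h⟩
    obtain ⟨h10, h11, h12⟩ := h3
    exact ⟨h10, (h9 _).1 h11, fun z hz hz' => h12 z hz ((h9 z).2 hz')⟩
  have hDsub : D ⊆ LFn R := by
    intro x hx
    by_contra hne
    have h3 : ∀ f : Fin n → LaurentSeries (ZMod p), ∃ r : ℤ, f ∈ LFn R → ¬ NB r x f := by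
      intro f
      by_cases hf : f ∈ LFn R
      · have hne' : x ≠ f := fun h => hne (by rw [h]; exact hf)
        obtain ⟨i, hi⟩ := Function.ne_iff.1 hne'
        obtain ⟨k, hk⟩ : ∃ k, (x i).coeff k ≠ (f i).coeff k := by
          by_contra hcon
          push Not at hcon
          exact hi (HahnSeries.ext (funext fun k => hcon k))
        exact ⟨k + 1, fun _ h => hk (h i k (lt_add_one k))⟩
      · exact ⟨0, fun h => absurd h hf⟩
    choose ρ hρ using h3
    obtain ⟨M, hM⟩ : ∃ M : ℤ, ∀ a ∈ LFn R, ρ a ≤ M := by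
      obtain ⟨M, hM⟩ := (h1.image ρ).bddAbove
      exact ⟨M, fun a ha => hM ⟨a, ha, rfl⟩⟩
    obtain ⟨r0, hr0⟩ := hle x hx
    obtain ⟨y, hy⟩ := hr0 (max r0 M) (le_max_left _ _)
    have h4 := hsub x _ (single_ne _) hy
    exact hρ y h4 (((near_single _ _ _).1 hy.2.1).mono ((hM y h4).trans (le_max_right _ _)))
  exact ⟨h1.subset hDsub, (Set.ncard_le_ncard hDsub h1).trans h2⟩

/-- a finite family has a least element -/
theorem exists_least {α ι : Type*} [Finite ι] [Nonempty ι] (D : Set α) (S : α → α → Prop)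
    (htr : ∀ x ∈ D, ∀ y ∈ D, ∀ z ∈ D, S x y → S y z → S x z)
    (hto : ∀ x ∈ D, ∀ y ∈ D, S x y ∨ S y x) (f : ι → α) (hf : ∀ i, f i ∈ D) :
    ∃ i0, ∀ i, S (f i0) (f i) := by
  classical
  cases nonempty_fintype ι
  have h : ∀ s : Finset ι, s.Nonempty → ∃ i0, ∀ i ∈ s, S (f i0) (f i) := by
    intro s hs
    induction hs using Finset.Nonempty.cons_induction with
    | singleton a => exact ⟨a, fun i hi => by
        rw [Finset.mem_singleton.1 hi]
        exact (hto _ (hf a) _ (hf a)).elim id id⟩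
    | cons a s ha hs ih =>
      obtain ⟨i0, hi0⟩ := ih
      rcases hto _ (hf i0) _ (hf a) with h1 | h1
      · refine ⟨i0, fun i hi => ?_⟩
        rcases Finset.mem_cons.1 hi with h2 | h2
        · rw [h2]; exact h1
        · exact hi0 i h2
      · refine ⟨a, fun i hi => ?_⟩
        rcases Finset.mem_cons.1 hi with h2 | h2
        · rw [h2]; exact (hto _ (hf a) _ (hf a)).elim id id
        · exact htr _ (hf a) _ (hf i0) _ (hf i) h1 (hi0 i h2)
  obtain ⟨i0, hi0⟩ := h Finset.univ Finset.univ_nonempty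
  exact ⟨i0, fun i => hi0 i (Finset.mem_univ i)⟩

/-- closed orders on locally closed sets have least elements on small balls -/
theorem closed_least {n : ℕ} (D : Set (Fin n → LaurentSeries (ZMod p)))
    (S : (Fin n → LaurentSeries (ZMod p)) → (Fin n → LaurentSeries (ZMod p)) → Prop)
    (htr : ∀ x ∈ D, ∀ y ∈ D, ∀ z ∈ D, S x y → S y z → S x z)
    (hto : ∀ x ∈ D, ∀ y ∈ D, S x y ∨ S y x)
    (hloc : ∀ x ∈ D, ∃ r0 : ℤ, ∀ x', NB r0 x x' → x' ∉ D → ∃ r : ℤ, ∀ x'', NB r x' x'' →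
      x'' ∉ D)
    (hcl : ∀ x ∈ D, ∀ y ∈ D, ¬ S y x → ∃ r : ℤ, ∀ y' ∈ D, NB r y y' → ¬ S y' x) :
    ∀ x ∈ D, ∃ r0 : ℤ, ∀ r, r0 ≤ r →
      (Lst D S (HahnSeries.single r (1 : ZMod p)) x).Nonempty := by
  classical
  intro x0 hx0
  obtain ⟨r0, hr0⟩ := hloc x0 hx0
  refine ⟨r0, fun r hr => ?_⟩
  by_contra hno
  have hno' : ∀ y ∈ D, NB r x0 y → ∃ z ∈ D, NB r x0 z ∧ ¬ S y z := by
    intro y hy hy'
    by_contra hcon
    push Not at hcon
    exact hno ⟨y, hy, (near_single _ _ _).2 hy', fun z hz hz' => hcon z hz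
      ((near_single _ _ _).1 hz')⟩
  let Q : ℤ → (Fin n → LaurentSeries (ZMod p)) → Prop := fun s c =>
    NB r x0 c ∧ ∀ y ∈ D, NB r x0 y → ∃ z ∈ D, NB s c z ∧ S z y
  have hQ0 : Q r x0 := ⟨NB.rfl, fun y hy hy' => ⟨y, hy, hy', (hto y hy y hy).elim id id⟩⟩
  have hstep : ∀ (s : ℤ) (c : Fin n → LaurentSeries (ZMod p)), r ≤ s → Q s c →
      ∃ c', NB s c c' ∧ Q (s + 1) c' := by
    rintro s c hs ⟨hc, hQ⟩
    by_contra hcon
    push Not at hcon
    -- for every vector of coefficients a point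
    have h1 : ∀ d : Fin n → ZMod p, ∃ y, y ∈ D ∧ NB r x0 y ∧ ∀ z ∈ D, NB s c z →
        (∀ i, (z i).coeff s = d i) → ¬ S z y := by
      intro d
      by_cases hex : ∃ z ∈ D, NB s c z ∧ ∀ i, (z i).coeff s = d i
      · obtain ⟨z0, hz0, h2, h3⟩ := hex
        have h4 := hcon z0 h2
        have h5 : NB r x0 z0 := hc.trans (h2.mono hs)
        have h6 : ¬ ∀ y ∈ D, NB r x0 y → ∃ z ∈ D, NB (s + 1) z0 z ∧ S z y :=
          fun h => h4 ⟨h5, h⟩
        push Not at h6
        obtain ⟨y, hy, hy', h7⟩ := h6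
        refine ⟨y, hy, hy', fun z hz hz' hz'' => h7 z hz fun i k hk => ?_⟩
        rcases lt_or_eq_of_le (Int.lt_add_one_iff.1 hk) with h8 | h8
        · rw [← h2 i k h8]
          exact hz' i k h8
        · rw [h8, h3 i, hz'' i]
      · push Not at hex
        exact ⟨x0, hx0, NB.rfl, fun z hz hz' hz'' => by
          obtain ⟨i, hi⟩ := hex z hz hz'
          exact absurd (hz'' i) hi⟩
    choose y hy hy' hy'' using h1
    obtain ⟨d0, hd0⟩ := exists_least D S htr hto y hy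
    obtain ⟨z, hz, hz', hz''⟩ := hQ (y d0) (hy d0) (hy' d0)
    exact hy'' (fun i => (z i).coeff s) z hz hz' (fun _ => rfl)
      (htr _ hz _ (hy d0) _ (hy _) hz'' (hd0 _))
  -- the sequence
  let T := {q : (Fin n → LaurentSeries (ZMod p)) × ℤ // r ≤ q.2 ∧ Q q.2 q.1}
  have hstep' : ∀ q : T, ∃ q' : T, NB q.1.2 q.1.1 q'.1.1 ∧ q'.1.2 = q.1.2 + 1 := by
    rintro ⟨⟨c, s⟩, hs, hQ⟩
    obtain ⟨c', h1, h2⟩ := hstep s c hs hQ
    exact ⟨⟨(c', s + 1), by simp only; linarith, h2⟩, h1, rfl⟩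
  choose g hg1 hg2 using hstep'
  let q : ℕ → T := fun k => Nat.rec ⟨(x0, r), le_rfl, hQ0⟩ (fun _ q => g q) k
  have hr' : ∀ k, (q k).1.2 = r + k := by
    intro k
    induction k with
    | zero => simp [q]
    | succ k ih =>
      have h1 : (q (k + 1)).1.2 = (q k).1.2 + 1 := hg2 (q k)
      rw [h1, ih]
      push_cast
      ring
  have hlim : ∀ i : Fin n, ∃ x, ∀ k, Pool.Agent.Y697.UF.Ag (q k).1.2 ((q k).1.1 i) x := by
    intro i
    exact exists_limit (fun k => (q k).1.1 i) (fun k => (q k).1.2)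
      (fun k => by rw [hr' k, hr' (k + 1)]; push_cast; linarith) fun k => hg1 (q k) i
  choose x hx using hlim
  have hxk : ∀ k : ℕ, NB (r + k) (q k).1.1 x := fun k i => by
    have := hx i k
    rwa [hr' k] at this
  have hQk : ∀ k : ℕ, Q (r + k) (q k).1.1 := fun k => by
    have := (q k).2.2
    rwa [hr' k] at this
  have hx0x : NB r x0 x := by
    have := hxk 0
    rw [Nat.cast_zero, add_zero] at this
    exact this
  -- elements near the limit
  have hnear : ∀ s : ℤ, ∀ y ∈ D, NB r x0 y → ∃ z ∈ D, NB s x z ∧ S z y := by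
    intro s y hy hy'
    obtain ⟨z, hz, hz', hz''⟩ := (hQk (s - r).toNat).2 y hy hy'
    refine ⟨z, hz, ((hxk _).symm.trans hz').mono ?_, hz''⟩
    have := Int.self_le_toNat (s - r)
    linarith
  have hxD : x ∈ D := by
    by_contra hn
    obtain ⟨s, hs⟩ := hr0 x (hx0x.mono hr) hn
    obtain ⟨z, hz, hz', _⟩ := hnear s x0 hx0 NB.rfl
    exact hs z hz' hz
  obtain ⟨y, hy, hy', hxy⟩ := hno' x hxD hx0x
  obtain ⟨s, hs⟩ := hcl y hy x hxD hxy
  obtain ⟨z, hz, hz', hz''⟩ := hnear s y hy hy'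
  exact hs z hz hz' hz''

end Pool.Agent.R794.FP
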